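import Pool.Agent.MP_3fa95c_lc.H46.Mach

namespace Pool.Agent.MP_3fa95c_lc.H46

noncomputable def tau (k : ℕ) : ℝ :=
  k.factorial * (Real.exp 1 - ∑ i ∈ Finset.range (k + 1), 1 / (i.factorial : ℝ))

theorem tau_rec (k : ℕ) : (k + 1) * tau k = 1 + tau (k + 1) := by
  unfold tau
  rw [Finset.sum_range_succ _ (k + 1), Nat.factorial_succ]
  have : (k.factorial : ℝ) ≠ 0 := by positivity
  push_cast; field_simp; ring

theorem tau_one : tau 1 = Real.exp 1 - 2 := by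
  simp [tau, Finset.sum_range_succ]; norm_num

theorem tau_bd (k : ℕ) (hk : 1 ≤ k) : 0 ≤ tau k ∧ tau k ≤ 1 := by
  have h1 := Real.sum_le_exp_of_nonneg (x := 1) zero_le_one (k + 1)
  have h2 := Real.exp_bound' (x := 1) zero_le_one le_rfl (n := k + 1) (by omega)
  simp only [one_pow] at h1 h2
  unfold tau
  have hf : (0 : ℝ) < k.factorial := by positivity
  refine ⟨mul_nonneg hf.le (by linarith), ?_⟩
  have h3 : Real.exp 1 - ∑ i ∈ Finset.range (k + 1), 1 / (i.factorial : ℝ) ≤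
      1 * (((k + 1 : ℕ) : ℝ) + 1) / (((k + 1).factorial : ℝ) * ((k + 1 : ℕ) : ℝ)) := by linarith
  refine (mul_le_mul_of_nonneg_left h3 hf.le).trans ?_
  rw [Nat.factorial_succ]; push_cast
  have hk' : (1 : ℝ) ≤ k := by exact_mod_cast hk
  rw [← mul_div_assoc, div_le_one (by positivity)]
  nlinarith [mul_pos hf hf, mul_nonneg hf.le (sub_nonneg.2 hk')]

structure Core (j k : ℕ) (S : ℤ) (a f b : ℝ) : Prop where
  h1 : f * (10 ^ j * Real.exp 1 - S) = a + b * tau k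
  h2 : b * k.factorial = f * 10 ^ j
  h3 : b ≤ f
  h4 : |10 ^ j * Real.exp 1 - S| ≤ 3 / 5
  h5 : 0 < f
  h6 : 1 ≤ k

namespace Core
variable {j k : ℕ} {S : ℤ} {a f b : ℝ}

theorem b_pos (h : Core j k S a f b) : 0 < b := by
  have h2 := h.h2
  have : 0 < f * 10 ^ j := mul_pos h.h5 (by positivity)
  have hf : (0 : ℝ) < k.factorial := by positivity
  by_contra hb
  nlinarith

theorem a_le (h : Core j k S a f b) : |a| ≤ 3 / 5 * f + b := by
  have h1 : a = f * (10 ^ j * Real.exp 1 - S) - b * tau k := by linarith [h.h1]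
  obtain ⟨t1, t2⟩ := tau_bd k h.h6
  have hb := h.b_pos
  rw [h1]
  refine (abs_sub _ _).trans ?_
  rw [abs_mul, abs_mul, abs_of_pos h.h5, abs_of_pos hb, abs_of_nonneg t1]
  nlinarith [h.h4, h.h5]

theorem a_le2 (h : Core j k S a f b) : |a| ≤ 2 * f := by linarith [h.a_le, h.h3, h.h5]

theorem scale (h : Core j k S a f b) : Core j k S (a / 10) (f / 10) (b / 10) :=
  ⟨by linarith [h.h1], by linarith [h.h2], by linarith [h.h3], h.h4, by linarith [h.h5], h.h6⟩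

theorem absorb (h : Core j k S a f b) :
    Core j (k + 1) S ((k + 1 : ℕ) * a + b) ((k + 1 : ℕ) * f) b := by
  have hk : (0 : ℝ) ≤ k := by positivity
  refine ⟨?_, ?_, ?_, h.h4, ?_, by omega⟩
  · push_cast
    linear_combination (k + 1) * h.h1 + b * tau_rec k
  · rw [Nat.factorial_succ]; push_cast
    linear_combination (k + 1) * h.h2
  · push_cast; nlinarith [h.h3, h.h5]
  · push_cast; nlinarith [h.h5]

theorem fact_le (h : Core j k S a f b) (hb : 1 ≤ b) (hf : f ≤ 200004) :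
    k.factorial ≤ 10 ^ (j + 6) := by
  have h1 : (k.factorial : ℝ) ≤ 10 ^ (j + 6) := by
    have hf0 : (0 : ℝ) < k.factorial := by positivity
    have : (0 : ℝ) < 10 ^ j := by positivity
    rw [pow_add]
    nlinarith [h.h2]
  exact_mod_cast h1

theorem emit (h : Core j k S a f b) (hb : b ≤ 1) (hf : 10000 ≤ f) (a0 f0 : ℤ)
    (ha0 : |a - a0| ≤ 4) (hf0 : |f - f0| ≤ 4) :
    Core (j + 1) k (10 * S + (20 * a0 + f0) / (2 * f0))
      (10 * a - ((20 * a0 + f0) / (2 * f0) : ℤ) * f) f (10 * b) ∧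
      |(20 * a0 + f0) / (2 * f0)| ≤ 6 := by
  obtain ⟨g1, g2⟩ := abs_le.1 ha0
  obtain ⟨g3, g4⟩ := abs_le.1 hf0
  have hf0' : (9996 : ℝ) ≤ f0 := by linarith
  have hf0i : (9996 : ℤ) ≤ f0 := by exact_mod_cast hf0'
  set s := (20 * a0 + f0) / (2 * f0) with hs
  have e1 : s * (2 * f0) ≤ 20 * a0 + f0 := Int.ediv_mul_le _ (by omega)
  have e2 : 20 * a0 + f0 < (s + 1) * (2 * f0) := Int.lt_ediv_add_one_mul_self _ (by omega)
  have e1' : (s : ℝ) * (2 * f0) ≤ 20 * a0 + f0 := by exact_mod_cast e1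
  have e2' : (20 * a0 + f0 : ℝ) < (s + 1) * (2 * f0) := by exact_mod_cast e2
  obtain ⟨a1, a2⟩ := abs_le.1 h.a_le
  have s1 : s ≤ 6 := by
    by_contra hc
    have : (7 : ℝ) ≤ s := by exact_mod_cast (by omega : (7 : ℤ) ≤ s)
    nlinarith
  have s2 : -6 ≤ s := by
    by_contra hc
    have : (s : ℝ) ≤ -7 := by exact_mod_cast (by omega : s ≤ (-7 : ℤ))
    nlinarith
  have s1' : (s : ℝ) ≤ 6 := by exact_mod_cast s1
  have s2' : (-6 : ℝ) ≤ s := by exact_mod_cast s2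
  obtain ⟨t1, t2⟩ := tau_bd k h.h6
  have hb0 := h.b_pos
  have key : f * (10 ^ (j + 1) * Real.exp 1 - ((10 * S + s : ℤ) : ℝ)) =
      10 * a - s * f + 10 * b * tau k := by
    push_cast; rw [pow_succ]; linear_combination 10 * h.h1
  refine ⟨⟨key, ?_, by linarith, ?_, h.h5, h.h6⟩, abs_le.2 ⟨s2, s1⟩⟩
  · rw [pow_succ]; linear_combination 10 * h.h2
  · have u1 : |(s : ℝ) * (f - f0)| ≤ 24 := by
      rw [abs_mul]
      have : |(s : ℝ)| ≤ 6 := abs_le.2 ⟨s2', s1'⟩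
      nlinarith [abs_nonneg (s : ℝ), abs_nonneg (f - f0)]
    obtain ⟨u2, u3⟩ := abs_le.1 u1
    have u4 : 0 ≤ b * tau k := by positivity
    have u5 : b * tau k ≤ 1 := by nlinarith
    rw [abs_le]
    constructor
    · by_contra hc
      push Not at hc
      have := mul_lt_mul_of_pos_left hc h.h5
      rw [key] at this
      nlinarith
    · by_contra hc
      push Not at hc
      have := mul_lt_mul_of_pos_left hc h.h5
      rw [key] at this
      nlinarith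

end Core

/-- pending digits: the signed digits after position `p` vanish -/
def Pend (j p z : ℕ) (S w : ℤ) : Prop :=
  j = p + z ∧ 1 ≤ w ∧ w ≤ 9 ∧ ∃ u : ℤ, S = 10 ^ z * (10 * u + w)

noncomputable def dg (i : ℕ) : ℤ := ⌊(10 : ℝ) ^ i * Real.exp 1⌋ % 10

theorem floor_of {j p z : ℕ} {S w s : ℤ} (u : ℤ) (hj : j = p + z) (hS : S = 10 ^ z * (10 * u + w))
    (h1 : |10 ^ j * Real.exp 1 - S| ≤ 3 / 5)
    (h2 : |10 ^ (j + 1) * Real.exp 1 - ((10 * S + s : ℤ) : ℝ)| ≤ 3 / 5) (hs : s ≠ 0)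
    (y : ℕ) (hy : y ≤ z) :
    ⌊(10 : ℝ) ^ (p + y) * Real.exp 1⌋ = 10 ^ y * (10 * u + w) - if s < 0 then 1 else 0 := by
  obtain ⟨x, rfl⟩ := Nat.exists_eq_add_of_le hy
  set r : ℝ := 10 ^ (p + y) * Real.exp 1 - ((10 ^ y * (10 * u + w) : ℤ) : ℝ) with hr
  have e : 10 ^ j * Real.exp 1 - S = 10 ^ x * r := by
    rw [hj, hS, hr]; push_cast; ring
  have e2 : 10 ^ (j + 1) * Real.exp 1 - ((10 * S + s : ℤ) : ℝ) = 10 * (10 ^ x * r) - s := by
    rw [← e]; push_cast; ring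
  rw [e] at h1; rw [e2] at h2
  obtain ⟨g1, g2⟩ := abs_le.1 h1
  obtain ⟨g3, g4⟩ := abs_le.1 h2
  have hx : (1 : ℝ) ≤ 10 ^ x := one_le_pow₀ (by norm_num)
  rw [Int.floor_eq_iff]
  split_ifs with hneg
  · have : (s : ℝ) ≤ -1 := by exact_mod_cast (by omega : s ≤ (-1 : ℤ))
    have r1 : r < 0 := by by_contra hc; push Not at hc; nlinarith
    have r2 : -1 ≤ r := by nlinarith
    push_cast at hr ⊢; constructor <;> linarith
  · have : (1 : ℝ) ≤ s := by exact_mod_cast (by omega : (1 : ℤ) ≤ s)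
    have r1 : 0 ≤ r := by by_contra hc; push Not at hc; nlinarith
    have r2 : r < 1 := by nlinarith
    push_cast at hr ⊢; constructor <;> linarith

theorem Pend.j_le {c : ℕ} (hc : ∀ (p z : ℕ) (S : ℤ),
    |(10 : ℝ) ^ p * Real.exp 1 - S| ≤ 1 / 10 ^ z → z ≤ 2 * p + c)
    {j p z : ℕ} {S w : ℤ} (h : Pend j p z S w) (h1 : |10 ^ j * Real.exp 1 - S| ≤ 3 / 5) :
    j ≤ 3 * p + c := by
  obtain ⟨hj, -, -, u, hS⟩ := h
  have := hc p z (10 * u + w) (by
    have e : 10 ^ j * Real.exp 1 - S = 10 ^ z * (10 ^ p * Real.exp 1 - ((10 * u + w : ℤ) : ℝ)) := by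
      rw [hj, hS]; push_cast; ring
    rw [e, abs_mul, abs_of_pos (by positivity)] at h1
    rw [le_div_iff₀ (by positivity)]
    linarith)
  omega

def bval : List Bool → ℕ
  | [] => 0
  | b :: l => b.toNat + 2 * bval l

def rval : List Bool → ℕ
  | [] => 0
  | b :: l => b.toNat * 2 ^ l.length + rval l

theorem L_le {L k j : ℕ} (h : 2 ^ L ≤ (k + 1).factorial ^ 14) (hk : k.factorial ≤ 10 ^ (j + 6)) :
    L ≤ 112 * j + 686 := by
  have h1 : k + 1 ≤ 2 * k.factorial := by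
    have := Nat.self_le_factorial k
    have := Nat.factorial_pos k
    omega
  have h2 : (k + 1).factorial ≤ 2 ^ (8 * j + 49) := by
    rw [Nat.factorial_succ]
    have h3 : 10 ^ (j + 6) ≤ 2 ^ (4 * (j + 6)) := by
      rw [pow_mul]; exact Nat.pow_le_pow_left (by norm_num) _
    have h4 := hk.trans h3
    calc (k + 1) * k.factorial ≤ 2 * 2 ^ (4 * (j + 6)) * 2 ^ (4 * (j + 6)) :=
          Nat.mul_le_mul (h1.trans (by omega)) h4
      _ = 2 ^ (8 * j + 49) := by ring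
  have h5 : 2 ^ L ≤ 2 ^ (112 * j + 686) := by
    refine h.trans ((Nat.pow_le_pow_left h2 14).trans_eq ?_)
    rw [← pow_mul]; congr 1; ring
  exact (Nat.pow_le_pow_iff_right (by norm_num)).1 h5

theorem L_step {L k l n : ℕ} (h : 2 ^ L ≤ k.factorial ^ 14) (hk : 1 ≤ k)
    (hl : 2 ^ l ≤ 2 * (k + 1)) (hn : n ≤ 3 * l + 4) : 2 ^ (L + n) ≤ (k + 1).factorial ^ 14 := by
  rw [Nat.factorial_succ, mul_pow, pow_add, mul_comm]
  refine Nat.mul_le_mul ?_ h
  calc 2 ^ n ≤ 2 ^ (3 * l + 4) := Nat.pow_le_pow_right (by norm_num) hn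
    _ = (2 ^ l) ^ 3 * 2 ^ 4 := by ring
    _ ≤ (2 * (k + 1)) ^ 3 * 2 ^ 4 := by gcongr
    _ = 2 ^ 7 * (k + 1) ^ 3 := by ring
    _ ≤ (k + 1) ^ 7 * (k + 1) ^ 7 :=
        Nat.mul_le_mul (Nat.pow_le_pow_left (by omega) 7) (Nat.pow_le_pow_right (by omega) (by norm_num))
    _ = (k + 1) ^ 14 := by ring

def NN (x : ℕ → ℤ) : Prop := ∀ j, 0 ≤ x (j + 1) ∧ x (j + 1) ≤ 9

theorem NN.bd {x : ℕ → ℤ} (h : NN x) : Bd 30 x := fun j =>
  abs_le.2 ⟨by linarith [(h j).1], by linarith [(h j).2]⟩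

theorem NN.shl {x : ℕ → ℤ} (h : NN x) : NN (app .shl x) := fun j => h (j + 1)

theorem NN.shr {x : ℕ → ℤ} (h : NN x) : NN (app .shr x) := fun j => by
  cases j with
  | zero => simp only [app]; omega
  | succ j => exact h j

theorem Bd.all {x : ℕ → ℤ} (h : Bd 30 x) (hv : |val x| ≤ 5000000) (j : ℕ) : |x j| ≤ 10000000 := by
  cases j with
  | zero =>
    have h1 := abs_le.1 h.head
    have h2 := abs_le.1 hv
    have : |(x 0 : ℝ)| ≤ 10000000 := by rw [abs_le]; constructor <;> linarith [h1.1, h1.2, h2.1, h2.2]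
    exact_mod_cast this
  | succ j => exact (h j).trans (by norm_num)

theorem bd_zero : Bd 30 (fun _ => 0) := fun _ => by simp

theorem val_zero : val (fun _ => 0) = 0 := by simp [val]

end Pool.Agent.MP_3fa95c_lc.H46
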