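import Mathlib

namespace Pool.Agent.MP_3fa95c_lc.H46

/-- An iterative array (one-way infinite one-dimensional cellular automaton whose cell `0`
is the output cell): finitely many states, a rule for cell `0` (own state, right neighbour),
a rule for the other cells (left neighbour, own state, right neighbour), a quiescent state,
a start state for cell `0`, and an output map (a state of cell `0` writes a digit or nothing). -/
structure IterArray where
  S : Type
  fin : Finite S
  quiet : S
  start : S
  rule0 : S → S → S
  rule : S → S → S → S
  rule_quiet : rule quiet quiet quiet = quiet
  out : S → Option (Fin 10)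

/-- State of cell `j` at time `t`; at time `0` all cells but cell `0` are quiescent. -/
def IterArray.conf (M : IterArray) : ℕ → ℕ → M.S
  | 0, 0 => M.start
  | 0, _ + 1 => M.quiet
  | t + 1, 0 => M.rule0 (M.conf t 0) (M.conf t 1)
  | t + 1, j + 1 => M.rule (M.conf t j) (M.conf t (j + 1)) (M.conf t (j + 2))

/-- The digits written by cell `0` at the times `0, 1, …, t - 1`, in order. -/
def IterArray.written (M : IterArray) (t : ℕ) : List (Fin 10) :=
  (List.range t).filterMap fun τ => M.out (M.conf τ 0)

end Pool.Agent.MP_3fa95c_lc.H46
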