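import Pool.Agent.MP_3fa95c_lc.H46.Core

namespace Pool.Agent.MP_3fa95c_lc.H46

/-- data common to the resting phases -/
structure Rest (j k L : ℕ) (f b : ℕ → ℤ) (l1 : List Bool) : Prop where
  bf : Bd 30 f
  nb : NN b
  lo : 10000 ≤ val f
  hi : val f ≤ 200004
  hk : bval l1 = k
  hl : 2 ^ l1.length ≤ 2 * k
  hL : 2 ^ L ≤ k.factorial ^ 14
  hf : (k - 1).factorial ≤ 10 ^ (j + 6)

inductive Inv (c t o : ℕ) : (Md × ℤ × ℤ) × (Tr → ℕ → ℤ) → Prop
  | main (j k L z : ℕ) (S w s : ℤ) (a f b : ℕ → ℤ) (l1 : List Bool)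
      (hr : Rest j k L f b l1) (ba : Bd 30 a) (hc : Core j k S (val a) (val f) (val b))
      (hp : Pend j o z S w) (hs : |s| ≤ 6) (ht : t ≤ 3 * j + o + L) :
      Inv c t o ((.main, w, s), mk a f (fun _ => 0) (fun _ => 0) b (enc l1) (enc [])
        (enc (List.replicate z false)))
  | emit (j k L z : ℕ) (S w s : ℤ) (a f b : ℕ → ℤ) (l1 : List Bool)
      (hr : Rest j k L f b l1) (ba : Bd 30 a)
      (hc : Core (j + 1) k (10 * S + s) (val a - s * val f) (val f) (val b))
      (ho : |10 ^ j * Real.exp 1 - S| ≤ 3 / 5)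
      (hp : Pend j o z S w) (hs : |s| ≤ 6) (ht : t ≤ 3 * j + o + L + 1) :
      Inv c t o ((.emit, w, s), mk a f (fun _ => 0) (fun _ => 0) b (enc l1) (enc [])
        (enc (List.replicate z false)))
  | flush (j k L z : ℕ) (S w s : ℤ) (a f b : ℕ → ℤ) (l1 : List Bool)
      (hr : Rest j k L f b l1) (ba : Bd 30 a) (hc : Core j k S (val a) (val f) (val b))
      (hp : Pend j j 0 S w) (hz : j = o + z) (hj : j ≤ 3 * o + c)
      (hd : ∀ i < z, dg (o + i) = if s < 0 then 9 else 0)
      (hs : |s| ≤ 6) (ht : t + 1 ≤ 3 * j + o + L) :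
      Inv c t o ((.flush, w, s), mk a f (fun _ => 0) (fun _ => 0) b (enc l1) (enc [])
        (enc (List.replicate z false)))
  | inc (j k L z : ℕ) (S w s : ℤ) (a f b : ℕ → ℤ) (l1 l2 : List Bool) (cc : Bool)
      (bf : Bd 30 f) (nb : NN b) (lo : 10000 ≤ val f) (hi : val f ≤ 200004)
      (hk : k + 1 = rval l2 + 2 ^ l2.length * (bval l1 + cc.toNat))
      (hl : 2 ^ (l1.length + l2.length) ≤ 2 * k)
      (hL : 2 ^ L ≤ k.factorial ^ 14) (hf : k.factorial ≤ 10 ^ (j + 6))
      (ba : Bd 30 a) (hc : Core j k S (val a) (val f) (val b))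
      (hp : Pend j o z S w) (hs : |s| ≤ 6) (ht : t ≤ 3 * j + o + L + 1 + l2.length) :
      Inv c t o ((.inc cc, w, s), mk a f (fun _ => 0) (fun _ => 0) b (enc l1) (enc l2)
        (enc (List.replicate z false)))
  | mul (j k L z : ℕ) (S w s : ℤ) (a f ya yf b : ℕ → ℤ) (l1 l2 : List Bool)
      (bf : Bd 30 f) (nb : NN b) (hi : val f ≤ 200004)
      (lo1 : bval l1 = 0 → 10000 ≤ val f) (lo2 : bval l1 ≠ 0 → 10000 ≤ val yf)
      (hi2 : val yf ≤ 600012) (bya : Bd 30 ya) (byf : Bd 30 yf)
      (vya : val ya = bval l1 * val a) (vyf : val yf = bval l1 * val f)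
      (hk : k + 1 = bval l1 * 2 ^ l2.length + rval l2)
      (hl : 2 ^ (l1.length + l2.length) ≤ 2 * (k + 1))
      (hL : 2 ^ L ≤ k.factorial ^ 14) (hf : k.factorial ≤ 10 ^ (j + 6))
      (ba : Bd 30 a) (hc : Core j k S (val a) (val f) (val b))
      (hp : Pend j o z S w) (hs : |s| ≤ 6)
      (ht : t ≤ 3 * j + o + L + 2 + (l1.length + l2.length) + 2 * l1.length +
        if 200000 ≤ yf 0 then 0 else 1) :
      Inv c t o ((.mul, w, s), mk a f ya yf b (enc l1) (enc l2) (enc (List.replicate z false)))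

def Step (c t o : ℕ) (st : (Md × ℤ × ℤ) × (Tr → ℕ → ℤ)) : Prop :=
  (ot st.1 (fun l => st.2 l 0) = none ∧ Inv c (t + 1) o (mach.step st)) ∨
  (∃ d : Fin 10, ot st.1 (fun l => st.2 l 0) = some d ∧ ((d : ℕ) : ℤ) = dg o ∧
    Inv c (t + 1) (o + 1) (mach.step st))

theorem dig_val (x : ℤ) : ((dig x : ℕ) : ℤ) = x % 10 := by
  simp only [dig]; omega

theorem Rest.succ {j k L : ℕ} {f b b' : ℕ → ℤ} {l1 : List Bool} (h : Rest j k L f b l1)
    (hb : NN b') : Rest j k L f b' l1 :=
  ⟨h.bf, hb, h.lo, h.hi, h.hk, h.hl, h.hL, h.hf⟩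

theorem Rest.up {j k L : ℕ} {f b : ℕ → ℤ} {l1 : List Bool} (h : Rest j k L f b l1) :
    Rest (j + 1) k L f b l1 :=
  ⟨h.bf, h.nb, h.lo, h.hi, h.hk, h.hl, h.hL,
    h.hf.trans (Nat.pow_le_pow_right (by norm_num) (by omega))⟩

theorem Inv.step {c t o : ℕ} (hcc : ∀ (p z : ℕ) (S : ℤ),
    |(10 : ℝ) ^ p * Real.exp 1 - S| ≤ 1 / 10 ^ z → z ≤ 2 * p + c)
    {st : (Md × ℤ × ℤ) × (Tr → ℕ → ℤ)} (h : Inv c t o st) : Step c t o st := by
  cases h with
  | main j k L z S w s a f b l1 hr ba hc hp hs ht =>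
    left
    refine ⟨rfl, ?_⟩
    obtain ⟨n1, n2⟩ := head_nn hr.nb
    by_cases hb : 1 ≤ b 0
    · rw [st_main1 hb]
      have hb' : (1 : ℝ) ≤ b 0 := by exact_mod_cast hb
      exact Inv.inc j k L z S w s a f b l1 [] true hr.bf hr.nb hr.lo hr.hi
        (by simp [rval, hr.hk]) (by simpa using hr.hl) hr.hL
        (hc.fact_le (by linarith) hr.hi) ba hc hp hs (by simp; omega)
    · rw [st_main2 hb]
      have hb' : (b 0 : ℝ) ≤ 0 := by exact_mod_cast (by omega : b 0 ≤ 0)
      obtain ⟨e1, e2⟩ := hc.emit (by linarith) hr.lo (a 0) (f 0) ba.head hr.bf.head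
      refine Inv.emit j k L z S w _ _ f _ l1 (hr.succ hr.nb.shl) ba.shl ?_ hc.h4 hp e2 (by omega)
      rw [val_shl ba, val_shl hr.nb.bd]; exact e1
  | emit j k L z S w s a f b l1 hr ba hc ho hp hs ht =>
    have hb : Bd 210 (fun j => 1 * a j + (-s) * f j) := (ba.lin hr.bf 1 (-s)).mono (by
      rw [abs_neg]; simp; linarith)
    have hv : val (app .nrm fun j => 1 * a j + (-s) * f j) = val a - s * val f := by
      rw [val_nrm hb, val_lin ba hr.bf]; push_cast; ring
    by_cases h0 : s = 0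
    · subst h0
      left
      refine ⟨rfl, ?_⟩
      rw [st_emit1, push_enc, ← List.replicate_succ]
      obtain ⟨p1, p2, p3, u, p4⟩ := hp
      refine Inv.main (j + 1) k L (z + 1) (10 * S + 0) w 0 _ f b l1 hr.up hb.nrm
        (by rw [hv]; exact hc) ⟨by omega, p2, p3, u, by rw [p4]; ring⟩ hs (by omega)
    · right
      have hj := hp.j_le hcc ho
      obtain ⟨p1, p2, p3, u, p4⟩ := hp
      have fl := floor_of u p1 p4 ho hc.h4 h0
      refine ⟨dig (if s < 0 then w - 1 else w), by simp [ot, h0], ?_, ?_⟩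
      · have := fl 0 (by omega)
        rw [dig_val]; unfold dg
        simp only [Nat.add_zero, pow_zero, one_mul] at this
        rw [this]; split_ifs <;> omega
      · rw [st_emit2 h0]
        have hs' := abs_le.1 hs
        refine Inv.flush (j + 1) k L z (10 * S + s) _ s _ f b l1 hr.up hb.nrm
          (by rw [hv]; exact hc) ⟨rfl, by split_ifs <;> omega, by split_ifs <;> omega,
            if s < 0 then S - 1 else S, by split_ifs <;> ring⟩ (by omega) (by omega) ?_ hs (by omega)
        intro i hi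
        have := fl (i + 1) (by omega)
        unfold dg
        rw [show o + 1 + i = o + (i + 1) by ring, this, pow_succ]
        generalize (10 : ℤ) ^ i = X
        have e : X * 10 * (10 * u + w) = 10 * (X * (10 * u + w)) := by ring
        rw [e]
        split_ifs <;> omega
  | flush j k L z S w s a f b l1 hr ba hc hp hz hj hd hs ht =>
    cases z with
    | zero =>
      left
      refine ⟨by simp [ot, mk, enc], ?_⟩
      rw [st_flush2 (by simp [enc]), List.replicate_zero, pop_nil]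
      obtain rfl : j = o := by omega
      exact Inv.main j k L 0 S w s a f b l1 hr ba hc hp hs (by omega)
    | succ z =>
      right
      have e : enc (List.replicate (z + 1) false) 0 = 1 := rfl
      refine ⟨dig (if s < 0 then 9 else 0), by simp [ot, mk, e], ?_, ?_⟩
      · have := hd 0 (by omega)
        rw [dig_val, Nat.add_zero] at *
        rw [this]; split_ifs <;> rfl
      · rw [st_flush1 e, List.replicate_succ, pop_cons]
        refine Inv.flush j k L z S w s a f b l1 hr ba hc hp (by omega) (by omega) ?_ hs (by omega)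
        intro i hi
        rw [show o + 1 + i = o + (i + 1) by ring]
        exact hd (i + 1) (by omega)
  | inc j k L z S w s a f b l1 l2 cc bf nb lo hi hk hl hL hf ba hc hp hs ht =>
    left
    refine ⟨rfl, ?_⟩
    cases l1 with
    | nil =>
      rw [st_inc1]
      refine Inv.mul j k L z S w s a f _ _ b [] _ bf nb hi (fun _ => lo) (fun h => absurd rfl h)
        (by rw [val_zero]; norm_num) bd_zero bd_zero (by simp [val_zero, bval])
        (by simp [val_zero, bval]) ?_ ?_ hL hf ba hc hp hs ?_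
      · cases cc <;> simp [bval, rval] at hk ⊢ <;> omega
      · cases cc
        · simp at hl ⊢; omega
        · simp [bval] at hk ⊢; rw [pow_succ]; omega
      · cases cc <;> simp <;> omega
    | cons d l1 =>
      rw [st_inc2]
      refine Inv.inc j k L z S w s a f b l1 _ _ bf nb lo hi ?_ ?_ hL hf ba hc hp hs ?_
      · rw [hk]; cases cc <;> cases d <;> simp [bval, rval, pow_succ] <;> ring
      · simp only [List.length_cons] at hl ⊢
        rwa [show l1.length + (l2.length + 1) = l1.length + 1 + l2.length by ring]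
      · simp only [List.length_cons]; omega
  | mul j k L z S w s a f ya yf b l1 l2 bf nb hi lo1 lo2 hi2 bya byf vya vyf hk hl hL hf ba hc hp
      hs ht =>
    left
    refine ⟨rfl, ?_⟩
    obtain ⟨y1, y2⟩ := abs_le.1 byf.head
    by_cases hy : 200000 ≤ yf 0
    · rw [st_mul1 hy]
      have hy' : (200000 : ℝ) ≤ yf 0 := by exact_mod_cast hy
      have n9 : (9 : ℤ) ≤ 30 := by norm_num
      have hne : bval l1 ≠ 0 := by
        intro h0; rw [h0] at vyf; simp at vyf; linarith
      have hsm : ¬ 200000 ≤ app .shr yf 0 := by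
        have : (yf 0 : ℝ) ≤ 600016 := by linarith
        have : yf 0 ≤ 600016 := by exact_mod_cast this
        simp only [app]; omega
      refine Inv.mul j k L z S w s _ _ _ _ _ l1 l2 (bf.shr n9) nb.shr ?_ (fun h => absurd h hne)
        (fun _ => ?_) ?_ (bya.shr n9) (byf.shr n9) ?_ ?_ hk hl hL hf (ba.shr n9) ?_ hp hs ?_
      · rw [val_shr bf n9]; linarith [hc.h5]
      · rw [val_shr byf n9]; linarith
      · rw [val_shr byf n9]; linarith
      · rw [val_shr bya n9, val_shr ba n9, vya]; ring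
      · rw [val_shr byf n9, val_shr bf n9, vyf]; ring
      · rw [val_shr ba n9, val_shr bf n9, val_shr nb.bd n9]; exact hc.scale
      · rw [if_pos hy] at ht; rw [if_neg hsm]; omega
    · have hy' : (yf 0 : ℝ) ≤ 200000 := by exact_mod_cast (by omega : yf 0 ≤ 200000)
      rw [if_neg hy] at ht
      cases l2 with
      | nil =>
        rw [st_mul2 hy]
        have hk' : bval l1 = k + 1 := by simpa [rval] using hk.symm
        have hb : Bd 210 (fun j => 1 * ya j + 1 * b j) := (bya.lin nb.bd 1 1).mono (by norm_num)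
        simp only [List.length_nil, Nat.add_zero] at hl ht
        refine Inv.main j (k + 1) (L + (3 * l1.length + 4)) z S w s _ yf b l1
          ⟨byf, nb, lo2 (by omega), by linarith, hk', hl, L_step hL hc.h6 hl le_rfl, hf⟩
          hb.nrm ?_ hp hs (by omega)
        rw [val_nrm hb, val_lin bya nb.bd, vya, vyf, hk']
        simpa using hc.absorb
      | cons d l2 =>
        rw [st_mul3 hy]
        have hd : |code d - 1| ≤ 1 := by cases d <;> simp [code]
        have hd2 : ((code d - 1 : ℤ) : ℝ) = (d.toNat : ℕ) := by cases d <;> simp [code]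
        have hb1 : Bd 210 (fun j => 2 * ya j + (code d - 1) * a j) :=
          (bya.lin ba 2 _).mono (by simp; linarith)
        have hb2 : Bd 210 (fun j => 2 * yf j + (code d - 1) * f j) :=
          (byf.lin bf 2 _).mono (by simp; linarith)
        have v1 : val (app .nrm fun j => 2 * ya j + (code d - 1) * a j) =
            bval (d :: l1) * val a := by
          rw [val_nrm hb1, val_lin bya ba, vya, hd2]; simp only [bval]; push_cast; ring
        have v2 : val (app .nrm fun j => 2 * yf j + (code d - 1) * f j) =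
            2 * val yf + (d.toNat : ℕ) * val f := by
          rw [val_nrm hb2, val_lin byf bf, hd2]; push_cast; ring
        have f0 := hc.h5
        refine Inv.mul j k L z S w s a f _ _ b (d :: l1) l2 bf nb hi (fun h => lo1 ?_)
          (fun h => ?_) ?_ hb1.nrm hb2.nrm v1 ?_ ?_ ?_ hL hf ba hc hp hs ?_
        · simp only [bval] at h; omega
        · rw [v2]
          by_cases h0 : bval l1 = 0
          · have := lo1 h0
            cases d
            · simp [bval, h0] at h
            · rw [vyf, h0]; simp; linarith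
          · have := lo2 h0
            have : (0 : ℝ) ≤ (d.toNat : ℕ) * val f := by positivity
            linarith
        · rw [v2]; cases d <;> simp <;> linarith
        · rw [v2, vyf]; simp only [bval]; push_cast; ring
        · rw [hk]; simp only [bval, rval, List.length_cons, pow_succ]; ring
        · simp only [List.length_cons] at hl ⊢
          rwa [show l1.length + 1 + l2.length = l1.length + (l2.length + 1) by ring]
        · simp only [List.length_cons] at ht ⊢
          split_ifs <;> omega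

theorem mk_le {a f ya yf b k1 k2 z : ℕ → ℤ} {K : ℤ} (h1 : ∀ j, |a j| ≤ K) (h2 : ∀ j, |f j| ≤ K)
    (h3 : ∀ j, |ya j| ≤ K) (h4 : ∀ j, |yf j| ≤ K) (h5 : ∀ j, |b j| ≤ K) (h6 : ∀ j, |k1 j| ≤ K)
    (h7 : ∀ j, |k2 j| ≤ K) (h8 : ∀ j, |z j| ≤ K) (i : Tr) (j : ℕ) :
    |mk a f ya yf b k1 k2 z i j| ≤ K := by
  cases i
  exacts [h1 j, h2 j, h3 j, h4 j, h5 j, h6 j, h7 j, h8 j]

theorem Inv.bound {c t o : ℕ} (hcc : ∀ (p z : ℕ) (S : ℤ),
    |(10 : ℝ) ^ p * Real.exp 1 - S| ≤ 1 / 10 ^ z → z ≤ 2 * p + c)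
    {st : (Md × ℤ × ℤ) × (Tr → ℕ → ℤ)} (h : Inv c t o st) :
    (1 ≤ st.1.2.1 ∧ st.1.2.1 ≤ 9 ∧ |st.1.2.2| ≤ 6) ∧ (∀ i j, |st.2 i j| ≤ 10000000) ∧
      t ≤ 346 * o + (115 * c + 700) := by
  have he : ∀ l j, |enc l j| ≤ 10000000 := fun l j => (enc_le l j).trans (by norm_num)
  have hz : ∀ j : ℕ, |(fun _ : ℕ => (0 : ℤ)) j| ≤ 10000000 := fun j => by simp
  have hL1 : ∀ {j k L : ℕ} {f b : ℕ → ℤ} {l1 : List Bool}, Rest j k L f b l1 → 1 ≤ k →
      L ≤ 112 * j + 686 := fun {j k L f b l1} hr hk => by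
    obtain ⟨k, rfl⟩ : ∃ m, k = m + 1 := ⟨k - 1, by omega⟩
    exact L_le hr.hL hr.hf
  have hfb : ∀ {j k : ℕ} {S : ℤ} {x : ℝ} {f b : ℕ → ℤ}, Core j k S x (val f) (val b) →
      val f ≤ 200004 → |val f| ≤ 5000000 ∧ |val b| ≤ 5000000 := fun hc hi => by
    rw [abs_of_pos hc.h5, abs_of_pos hc.b_pos]; constructor <;> linarith [hc.h3]
  cases h with
  | main j k L z S w s a f b l1 hr ba hc hp hs ht =>
    obtain ⟨q1, q2⟩ := hfb hc hr.hi
    have := hL1 hr hc.h6
    have := hp.j_le hcc hc.h4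
    exact ⟨⟨hp.2.1, hp.2.2.1, hs⟩, mk_le (ba.all (by linarith [hc.a_le2, hr.hi])) (hr.bf.all q1)
      hz hz (hr.nb.bd.all q2) (he _) (he _) (he _), by omega⟩
  | emit j k L z S w s a f b l1 hr ba hc ho hp hs ht =>
    obtain ⟨q1, q2⟩ := hfb hc hr.hi
    have := hL1 hr hc.h6
    have := hp.j_le hcc ho
    refine ⟨⟨hp.2.1, hp.2.2.1, hs⟩, mk_le (ba.all ?_) (hr.bf.all q1)
      hz hz (hr.nb.bd.all q2) (he _) (he _) (he _), by omega⟩
    have h1 := hc.a_le2
    have h2 : |(s : ℝ)| ≤ 6 := by exact_mod_cast hs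
    have h3 : |(s : ℝ) * val f| ≤ 6 * 200004 := by
      rw [abs_mul, abs_of_pos hc.h5]
      exact mul_le_mul h2 hr.hi hc.h5.le (by norm_num)
    have h4 := abs_add_le (val a - s * val f) (s * val f)
    rw [sub_add_cancel] at h4
    linarith [hr.hi]
  | flush j k L z S w s a f b l1 hr ba hc hp hz' hj hd hs ht =>
    obtain ⟨q1, q2⟩ := hfb hc hr.hi
    have := hL1 hr hc.h6
    exact ⟨⟨hp.2.1, hp.2.2.1, hs⟩, mk_le (ba.all (by linarith [hc.a_le2, hr.hi])) (hr.bf.all q1)
      hz hz (hr.nb.bd.all q2) (he _) (he _) (he _), by omega⟩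
  | inc j k L z S w s a f b l1 l2 cc bf nb lo hi hk hl hL hf ba hc hp hs ht =>
    obtain ⟨q1, q2⟩ := hfb hc hi
    have := L_le (L_step (l := l1.length + l2.length) (n := 1 + l2.length) hL hc.h6 (by omega)
      (by omega)) hf
    have := hp.j_le hcc hc.h4
    exact ⟨⟨hp.2.1, hp.2.2.1, hs⟩, mk_le (ba.all (by linarith [hc.a_le2])) (bf.all q1)
      hz hz (nb.bd.all q2) (he _) (he _) (he _), by omega⟩
  | mul j k L z S w s a f ya yf b l1 l2 bf nb hi lo1 lo2 hi2 bya byf vya vyf hk hl hL hf ba hc hp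
      hs ht =>
    obtain ⟨q1, q2⟩ := hfb hc hi
    have := L_le (L_step (n := 3 * (l1.length + l2.length) + 4) hL hc.h6 hl le_rfl) hf
    have := hp.j_le hcc hc.h4
    have f0 := hc.h5
    have m0 : (0 : ℝ) ≤ bval l1 := by positivity
    refine ⟨⟨hp.2.1, hp.2.2.1, hs⟩, mk_le (ba.all (by linarith [hc.a_le2])) (bf.all q1)
      (bya.all ?_) (byf.all ?_) (nb.bd.all q2) (he _) (he _) (he _), by split_ifs at ht <;> omega⟩
    · rw [vya, abs_mul, abs_of_nonneg m0]
      have := mul_le_mul_of_nonneg_left hc.a_le2 m0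
      nlinarith
    · rw [abs_of_nonneg (by rw [vyf]; positivity)]; linarith

theorem inv_zero (c : ℕ) : Inv c 0 0 (mach.run 0) := by
  rw [run_zero]
  have b1 : ∀ x : ℤ, Bd 30 (fun j => if j = 0 then x else 0) := fun x j => by simp
  have e1 := Real.exp_one_gt_d9
  have e2 := Real.exp_one_lt_d9
  refine Inv.main 0 1 0 0 3 3 0 _ _ _ [true]
    ⟨b1 _, fun j => by simp, by rw [val_single]; norm_num, by rw [val_single]; norm_num, rfl,
      by simp, by simp, by simp⟩ (b1 _) ?_ ⟨rfl, by norm_num, by norm_num, 0, by norm_num⟩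
    (by simp) le_rfl
  rw [val_single, val_single]
  refine ⟨by rw [tau_one]; push_cast; ring, by simp, le_rfl, ?_, by norm_num, le_rfl⟩
  rw [abs_le]; push_cast; constructor <;> linarith

end Pool.Agent.MP_3fa95c_lc.H46
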