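import Mathlib

namespace Pool.Agent.MP_3fa95c_lc.H46

open intervalIntegral

noncomputable def II (k : ℕ) : ℝ := (∫ x in (0 : ℝ)..1, (x * (1 - x)) ^ k * Real.exp x) / k.factorial

theorem II_zero : II 0 = Real.exp 1 - 1 := by simp [II]

theorem II_one : II 1 = 3 - Real.exp 1 := by
  have h : ∫ x in (0 : ℝ)..1, (x * (1 - x)) ^ 1 * Real.exp x =
      (3 * 1 - 1 ^ 2 - 3) * Real.exp 1 - (3 * 0 - 0 ^ 2 - 3) * Real.exp 0 := by
    refine integral_eq_sub_of_hasDerivAt (f := fun x => (3 * x - x ^ 2 - 3) * Real.exp x)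
      (fun x _ => ?_) (Continuous.intervalIntegrable (by fun_prop) _ _)
    have h1 : HasDerivAt (fun x : ℝ => 3 * x - x ^ 2 - 3) (3 - 2 * x) x := by
      have := (((hasDerivAt_id x).const_mul 3).sub (hasDerivAt_pow 2 x)).sub_const 3
      simpa using this
    exact (h1.fun_mul (Real.hasDerivAt_exp x)).congr_deriv (by ring)
  unfold II; rw [h]; simp; ring

theorem II_rec (k : ℕ) : II (k + 2) = II k - (4 * k + 6) * II (k + 1) := by
  have h : ∫ x in (0 : ℝ)..1, ((x * (1 - x)) ^ (k + 2) * Real.exp x -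
      ((k + 2) * (k + 1) * ((x * (1 - x)) ^ k * Real.exp x) -
        (k + 2) * (4 * k + 6) * ((x * (1 - x)) ^ (k + 1) * Real.exp x))) =
      ((1 * (1 - 1)) ^ (k + 2) - (k + 2) * (1 * (1 - 1)) ^ (k + 1) * (1 - 2 * 1)) * Real.exp 1 -
      ((0 * (1 - 0)) ^ (k + 2) - (k + 2) * (0 * (1 - 0)) ^ (k + 1) * (1 - 2 * 0)) * Real.exp 0 := by
    refine integral_eq_sub_of_hasDerivAt
      (f := fun x => ((x * (1 - x)) ^ (k + 2) - (k + 2) * (x * (1 - x)) ^ (k + 1) * (1 - 2 * x)) *
        Real.exp x) (fun x _ => ?_) (Continuous.intervalIntegrable (by fun_prop) _ _)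
    have hu : HasDerivAt (fun x : ℝ => x * (1 - x)) (1 - 2 * x) x := by
      exact ((hasDerivAt_id' x).fun_mul ((hasDerivAt_id' x).const_sub 1)).congr_deriv (by ring)
    have hv : HasDerivAt (fun x : ℝ => 1 - 2 * x) (-2) x := by
      simpa using ((hasDerivAt_id x).const_mul 2).const_sub 1
    have h1 := (hu.fun_pow (k + 2)).fun_sub
      ((((hu.fun_pow (k + 1)).const_mul ((k : ℝ) + 2))).fun_mul hv)
    refine (h1.fun_mul (Real.hasDerivAt_exp x)).congr_deriv ?_
    simp only [Nat.add_sub_cancel, show k + 2 - 1 = k + 1 from rfl]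
    push_cast
    ring
  rw [integral_sub (Continuous.intervalIntegrable (by fun_prop) _ _)
    (Continuous.intervalIntegrable (by fun_prop) _ _),
    integral_sub (Continuous.intervalIntegrable (by fun_prop) _ _)
    (Continuous.intervalIntegrable (by fun_prop) _ _), integral_const_mul, integral_const_mul] at h
  simp only [sub_self, mul_zero, zero_mul, ne_eq, Nat.add_eq_zero_iff, OfNat.ofNat_ne_zero,
    and_false, not_false_eq_true, zero_pow, one_ne_zero] at h
  unfold II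
  rw [Nat.factorial_succ (k + 1), Nat.factorial_succ k]
  have : (k.factorial : ℝ) ≠ 0 := by positivity
  push_cast
  field_simp
  linarith

theorem II_abs (k : ℕ) : |II k| ≤ 3 / k.factorial := by
  unfold II
  rw [abs_div, abs_of_pos (by positivity : (0 : ℝ) < k.factorial)]
  gcongr
  have := norm_integral_le_of_norm_le_const (a := 0) (b := 1) (C := 3)
    (f := fun x : ℝ => (x * (1 - x)) ^ k * Real.exp x) (fun x hx => by
      rw [Set.uIoc_of_le zero_le_one] at hx
      have h1 : 0 ≤ x * (1 - x) := mul_nonneg hx.1.le (by linarith [hx.2])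
      have h2 : x * (1 - x) ≤ 1 := by nlinarith [hx.1, hx.2]
      rw [Real.norm_eq_abs, abs_of_nonneg (by positivity)]
      have h3 : Real.exp x ≤ 3 := (Real.exp_le_exp.2 hx.2).trans
        (by linarith [Real.exp_one_lt_d9])
      have h4 := pow_le_one₀ (n := k) h1 h2
      nlinarith [Real.exp_pos x, pow_nonneg h1 k])
  simpa using this

def aa : ℕ → ℤ
  | 0 => 1
  | 1 => -1
  | k + 2 => aa k - (4 * k + 6) * aa (k + 1)

def bb : ℕ → ℤ
  | 0 => -1
  | 1 => 3
  | k + 2 => bb k - (4 * k + 6) * bb (k + 1)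

theorem II_eq (k : ℕ) : II k = aa k * Real.exp 1 + bb k ∧
    II (k + 1) = aa (k + 1) * Real.exp 1 + bb (k + 1) := by
  induction k with
  | zero => simp [II_zero, II_one, aa, bb]; constructor <;> ring
  | succ k ih =>
    refine ⟨ih.2, ?_⟩
    rw [II_rec, ih.1, ih.2]; simp only [aa, bb]; push_cast; ring

theorem det_ne (k : ℕ) : aa k * bb (k + 1) - aa (k + 1) * bb k ≠ 0 := by
  induction k with
  | zero => simp [aa, bb]
  | succ k ih =>
    intro h; apply ih
    simp only [aa, bb] at h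
    linarith

theorem aa_le (k : ℕ) : |aa k| ≤ 7 ^ k * k.factorial ∧ |aa (k + 1)| ≤ 7 ^ (k + 1) * (k + 1).factorial := by
  induction k with
  | zero => simp [aa]
  | succ k ih =>
    refine ⟨ih.2, ?_⟩
    simp only [aa]
    refine (abs_sub _ _).trans ?_
    rw [abs_mul, abs_of_nonneg (by positivity : (0 : ℤ) ≤ 4 * k + 6)]
    have h1 : (7 : ℤ) ^ k * k.factorial ≤ 7 ^ (k + 1) * (k + 1).factorial := by
      gcongr <;> omega
    have h2 : (7 : ℤ) ^ (k + 1 + 1) * (k + 1 + 1).factorial =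
        7 * (k + 2) * (7 ^ (k + 1) * (k + 1).factorial) := by
      rw [Nat.factorial_succ (k + 1)]; push_cast; ring
    have h3 : (0 : ℤ) ≤ 7 ^ (k + 1) * (k + 1).factorial := by positivity
    have h4 := mul_le_mul_of_nonneg_left ih.2 (by positivity : (0 : ℤ) ≤ 4 * k + 6)
    rw [h2]
    nlinarith [ih.1]

/-- `‖q e‖ ≥ c / q` -/
theorem irr_e : ∃ c : ℝ, 0 < c ∧ ∀ q : ℕ, 1 ≤ q → ∀ p : ℤ, c / q ^ 2 ≤ |q * Real.exp 1 - p| := by
  refine ⟨1 / (2 * (36 * 343 * 6 * Real.exp 56)), by positivity, fun q hq p => ?_⟩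
  have hex : ∃ k : ℕ, 6 * q ≤ (k + 1).factorial := ⟨6 * q, (Nat.le_succ _).trans (Nat.self_le_factorial _)⟩
  classical
  obtain ⟨k, hk, hmin⟩ : ∃ k : ℕ, 6 * q ≤ (k + 1).factorial ∧ k.factorial ≤ 6 * q := by
    refine ⟨Nat.find hex, Nat.find_spec hex, ?_⟩
    rcases h : Nat.find hex with _ | m
    · simp; omega
    · have := Nat.find_min hex (m := m) (by omega)
      omega
  have hq0 : (0 : ℝ) < q := by exact_mod_cast hq
  -- one of `k+1`, `k+2` works
  have key : ∃ i, k + 1 ≤ i ∧ i ≤ k + 2 ∧ aa i * p + q * bb i ≠ 0 := by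
    by_contra hcon
    push Not at hcon
    have h1 := hcon (k + 1) le_rfl (by omega)
    have h2 := hcon (k + 2) (by omega) le_rfl
    apply det_ne (k + 1)
    have hq' : (q : ℤ) ≠ 0 := by omega
    apply mul_left_cancel₀ hq'
    linear_combination aa (k + 1) * h2 - aa (k + 2) * h1
  obtain ⟨i, hi1, hi2, hi⟩ := key
  have h1 : (1 : ℝ) ≤ |(aa i : ℝ) * p + q * bb i| := by exact_mod_cast Int.one_le_abs hi
  have h2 : |(q : ℝ) * II i| ≤ 1 / 2 := by
    rw [abs_mul, abs_of_pos hq0]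
    have hf : (6 * q : ℝ) ≤ i.factorial := by exact_mod_cast hk.trans (Nat.factorial_le hi1)
    have := II_abs i
    calc (q : ℝ) * |II i| ≤ q * (3 / i.factorial) := by gcongr
      _ ≤ q * (3 / (6 * q)) := by gcongr
      _ = 1 / 2 := by field_simp; norm_num
  have h3 : (aa i : ℝ) * p + q * bb i = q * II i - aa i * (q * Real.exp 1 - p) := by
    rw [(II_eq i).1]; ring
  have h4 : 1 / 2 ≤ |(aa i : ℝ)| * |q * Real.exp 1 - p| := by
    rw [h3] at h1
    have := abs_sub ((q : ℝ) * II i) (aa i * (q * Real.exp 1 - p))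
    rw [abs_mul (aa i : ℝ)] at this
    linarith
  have h5 : |(aa i : ℝ)| ≤ 7 ^ (k + 2) * (k + 2).factorial := by
    have : |(aa i : ℝ)| ≤ 7 ^ i * i.factorial := by exact_mod_cast (aa_le i).1
    refine this.trans ?_
    gcongr; norm_num
  have h6 : (7 : ℝ) ^ (k + 2) * (k + 2).factorial ≤ (36 * 343 * 6 * Real.exp 56) * q ^ 2 := by
    have hk' : (k.factorial : ℝ) ≤ 6 * q := by exact_mod_cast hmin
    have e1 : (28 : ℝ) ^ k ≤ Real.exp 56 * k.factorial := by
      have := Real.pow_div_factorial_le_exp 28 (by norm_num) k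
      rw [div_le_iff₀ (by positivity)] at this
      refine this.trans ?_
      gcongr; norm_num
    have e2 : ((k : ℝ) + 1) ≤ 2 ^ k := by exact_mod_cast Nat.lt_two_pow_self
    have e3 : ((k : ℝ) + 2) ≤ 2 * 2 ^ k := by linarith [show (0 : ℝ) ≤ k by positivity]
    rw [Nat.factorial_succ (k + 1), Nat.factorial_succ k]
    push_cast
    have e4 : (28 : ℝ) ^ k = 7 ^ k * 2 ^ k * 2 ^ k := by rw [← mul_pow, ← mul_pow]; norm_num
    calc (7 : ℝ) ^ (k + 2) * ((k + 1 + 1) * ((k + 1) * k.factorial))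
        ≤ 7 ^ (k + 2) * ((2 * 2 ^ k) * (2 ^ k * (6 * q))) := by
          gcongr; linarith
      _ = 49 * 12 * q * 28 ^ k := by rw [e4]; ring
      _ ≤ 49 * 12 * q * (Real.exp 56 * (6 * q)) := by
          gcongr; exact e1.trans (by gcongr)
      _ ≤ (36 * 343 * 6 * Real.exp 56) * q ^ 2 := by
          have : 0 ≤ Real.exp 56 * q ^ 2 := by positivity
          nlinarith
  rw [div_div, div_le_iff₀ (by positivity)]
  have h7 := mul_le_mul_of_nonneg_right (h5.trans h6) (abs_nonneg ((q : ℝ) * Real.exp 1 - p))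
  nlinarith

/-- runs of zeros are short -/
theorem run_le : ∃ c : ℕ, ∀ (p z : ℕ) (S : ℤ),
    |(10 : ℝ) ^ p * Real.exp 1 - S| ≤ 1 / 10 ^ z → z ≤ 2 * p + c := by
  obtain ⟨c, hc, h⟩ := irr_e
  obtain ⟨m, hm⟩ := pow_unbounded_of_one_lt (1 / c) (by norm_num : (1 : ℝ) < 10)
  refine ⟨m, fun p z S hS => ?_⟩
  have h1 := h (10 ^ p) (Nat.one_le_pow _ _ (by norm_num)) S
  push_cast at h1
  have h2 := h1.trans hS
  rw [div_le_div_iff₀ (by positivity) (by positivity)] at h2
  rw [div_lt_iff₀ hc] at hm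
  have h3 : (10 : ℝ) ^ z < 10 ^ (2 * p + m) := by
    rw [pow_add, mul_comm 2 p, pow_mul]
    have h4 : (0 : ℝ) < 10 ^ z := by positivity
    have h5 : (0 : ℝ) < 10 ^ m := by positivity
    nlinarith
  exact ((pow_lt_pow_iff_right₀ (by norm_num)).1 h3).le

end Pool.Agent.MP_3fa95c_lc.H46
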