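import Pool.Agent.MP_3fa95c_lc.H46.Reg
import Pool.Agent.MP_3fa95c_lc.H46.Irr

set_option linter.unusedSimpArgs false

namespace Pool.Agent.MP_3fa95c_lc.H46

inductive Tr where
  | A | F | YA | YF | B | K1 | K2 | Z

theorem tr_finite : Finite Tr :=
  Finite.of_surjective (fun i : Fin 8 => ![Tr.A, .F, .YA, .YF, .B, .K1, .K2, .Z] i) fun x => by
    cases x
    exacts [⟨0, rfl⟩, ⟨1, rfl⟩, ⟨2, rfl⟩, ⟨3, rfl⟩, ⟨4, rfl⟩, ⟨5, rfl⟩, ⟨6, rfl⟩, ⟨7, rfl⟩]

inductive Md where
  | main | emit | flush | mul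
  | inc (c : Bool)

theorem md_finite : Finite Md :=
  Finite.of_surjective (fun i : Fin 6 => ![Md.main, .emit, .flush, .mul, .inc true, .inc false] i)
    fun x => by
      rcases x with _ | _ | _ | _ | (_ | _)
      exacts [⟨0, rfl⟩, ⟨1, rfl⟩, ⟨2, rfl⟩, ⟨3, rfl⟩, ⟨5, rfl⟩, ⟨4, rfl⟩]

def dig (x : ℤ) : Fin 10 := ⟨(x % 10).toNat, by omega⟩

def code (b : Bool) : ℤ := if b then 2 else 1

def nxt : Md × ℤ × ℤ → (Tr → ℤ) → Md × ℤ × ℤ
  | (.main, w, s), h => if 1 ≤ h .B then (.inc true, w, s)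
      else (.emit, w, (20 * h .A + h .F) / (2 * h .F))
  | (.emit, w, s), _ => if s = 0 then (.main, w, s) else (.flush, if s < 0 then s + 10 else s, s)
  | (.flush, w, s), h => if h .Z = 1 then (.flush, w, s) else (.main, w, s)
  | (.inc c, w, s), h => if h .K1 = 0 then (.mul, w, s) else (.inc (c && decide (h .K1 = 2)), w, s)
  | (.mul, w, s), h => if 200000 ≤ h .YF then (.mul, w, s)
      else if h .K2 = 0 then (.main, w, s) else (.mul, w, s)

def m1 : Tr → Mode
  | .A => .shl
  | .B => .shl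
  | _ => .keep

def m2 (s : ℤ) : Tr → Mode
  | .A => .nrm
  | .Z => if s = 0 then .push 1 else .keep
  | _ => .keep

def m3 : Tr → Mode
  | .Z => .pop
  | _ => .keep

def m4 (c : Bool) (x : ℤ) : Tr → Mode
  | .K1 => .pop
  | .K2 => if x = 0 then (if c then .push 2 else .keep) else .push (code (xor c (decide (x = 2))))
  | _ => .keep

def m5 : Tr → Mode
  | .K1 => .keep
  | .K2 => .keep
  | .Z => .keep
  | _ => .shr

def m6 : Tr → Mode
  | .A => .nrm
  | _ => .keep

def m7 (x : ℤ) : Tr → Mode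
  | .YA => .nrm
  | .YF => .nrm
  | .K1 => .push x
  | .K2 => .pop
  | _ => .keep

def md : Md × ℤ × ℤ → (Tr → ℤ) → Tr → Mode
  | (.main, _, _), h, i => if 1 ≤ h .B then .keep else m1 i
  | (.emit, _, s), _, i => m2 s i
  | (.flush, _, _), _, i => m3 i
  | (.inc c, _, _), h, i => m4 c (h .K1) i
  | (.mul, _, _), h, i => if 200000 ≤ h .YF then m5 i else if h .K2 = 0 then m6 i
      else m7 (h .K2) i

def s1 (s : ℤ) (x : Tr → ℤ) : Tr → ℤ
  | .A => 1 * x .A + (-s) * x .F
  | i => x i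

def s2 (x : Tr → ℤ) : Tr → ℤ
  | .A => 1 * x .YA + 1 * x .B
  | .F => x .YF
  | .YA => 0
  | .YF => 0
  | i => x i

def s3 (d : ℤ) (x : Tr → ℤ) : Tr → ℤ
  | .YA => 2 * x .YA + (d - 1) * x .A
  | .YF => 2 * x .YF + (d - 1) * x .F
  | i => x i

def sr : Md × ℤ × ℤ → (Tr → ℤ) → Tr → (Tr → ℤ) → ℤ
  | (.main, _, _), _, i, x => x i
  | (.emit, _, s), _, i, x => s1 s x i
  | (.flush, _, _), _, i, x => x i
  | (.inc _, _, _), _, i, x => x i
  | (.mul, _, _), h, i, x => if 200000 ≤ h .YF then x i else if h .K2 = 0 then s2 x i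
      else s3 (h .K2) x i

def ot : Md × ℤ × ℤ → (Tr → ℤ) → Option (Fin 10)
  | (.emit, w, s), _ => if s = 0 then none else some (dig (if s < 0 then w - 1 else w))
  | (.flush, _, s), h => if h .Z = 1 then some (dig (if s < 0 then 9 else 0)) else none
  | _, _ => none

def mach : Trk (Md × ℤ × ℤ) Tr where
  g0 := (.main, 3, 0)
  head i := match i with
    | .A => -100000
    | .F => 100000
    | .B => 100000
    | .K1 => 2
    | _ => 0
  next := nxt
  mode := md
  src := sr
  out := ot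

def mk (a f ya yf b k1 k2 z : ℕ → ℤ) : Tr → ℕ → ℤ
  | .A => a
  | .F => f
  | .YA => ya
  | .YF => yf
  | .B => b
  | .K1 => k1
  | .K2 => k2
  | .Z => z

def enc : List Bool → ℕ → ℤ
  | [], _ => 0
  | b :: _, 0 => code b
  | _ :: l, j + 1 => enc l j

theorem app_keep (x : ℕ → ℤ) : app .keep x = x := by funext j; rfl

theorem pop_cons (b : Bool) (l : List Bool) : app .pop (enc (b :: l)) = enc l := by
  funext j; rfl

theorem pop_nil : app .pop (enc []) = enc [] := by funext j; rfl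

theorem push_enc (b : Bool) (l : List Bool) : app (.push (code b)) (enc l) = enc (b :: l) := by
  funext j; cases j <;> rfl

theorem enc_le : ∀ (l : List Bool) (j : ℕ), |enc l j| ≤ 2
  | [], _ => by simp [enc]
  | b :: _, 0 => by cases b <;> simp [enc, code]
  | _ :: l, j + 1 => enc_le l j

variable {a f ya yf b k1 k2 z : ℕ → ℤ} {w s : ℤ}

theorem st_main1 (h : 1 ≤ b 0) : mach.step ((.main, w, s), mk a f ya yf b k1 k2 z) =
    ((.inc true, w, s), mk a f ya yf b k1 k2 z) := by
  refine Prod.ext ?_ (funext fun i => ?_)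
  · simp [Trk.step, mach, nxt, mk, h]
  · cases i <;> simp [Trk.step, mach, md, sr, mk, m1, m2, m3, m4, m5, m6, m7, s1, s2, s3, h, app_keep]

theorem st_main2 (h : ¬ 1 ≤ b 0) : mach.step ((.main, w, s), mk a f ya yf b k1 k2 z) =
    ((.emit, w, (20 * a 0 + f 0) / (2 * f 0)),
      mk (app .shl a) f ya yf (app .shl b) k1 k2 z) := by
  refine Prod.ext ?_ (funext fun i => ?_)
  · simp [Trk.step, mach, nxt, mk, h]
  · cases i <;> simp [Trk.step, mach, md, sr, mk, m1, m2, m3, m4, m5, m6, m7, s1, s2, s3, h, app_keep]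

theorem st_emit1 : mach.step ((.emit, w, 0), mk a f ya yf b k1 k2 z) =
    ((.main, w, 0), mk (app .nrm fun j => 1 * a j + (-0) * f j) f ya yf b k1 k2
      (app (.push (code false)) z)) := by
  refine Prod.ext ?_ (funext fun i => ?_)
  · simp [Trk.step, mach, nxt]
  · cases i <;> simp [Trk.step, mach, md, sr, mk, m1, m2, m3, m4, m5, m6, m7, s1, s2, s3, app_keep, code]

theorem st_emit2 (h : s ≠ 0) : mach.step ((.emit, w, s), mk a f ya yf b k1 k2 z) =
    ((.flush, if s < 0 then s + 10 else s, s),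
      mk (app .nrm fun j => 1 * a j + (-s) * f j) f ya yf b k1 k2 z) := by
  refine Prod.ext ?_ (funext fun i => ?_)
  · simp [Trk.step, mach, nxt, h]
  · cases i <;> simp [Trk.step, mach, md, sr, mk, m1, m2, m3, m4, m5, m6, m7, s1, s2, s3, h, app_keep]

theorem st_flush1 (h : z 0 = 1) : mach.step ((.flush, w, s), mk a f ya yf b k1 k2 z) =
    ((.flush, w, s), mk a f ya yf b k1 k2 (app .pop z)) := by
  refine Prod.ext ?_ (funext fun i => ?_)
  · simp [Trk.step, mach, nxt, mk, h]
  · cases i <;> simp [Trk.step, mach, md, sr, mk, m1, m2, m3, m4, m5, m6, m7, s1, s2, s3, app_keep]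

theorem st_flush2 (h : z 0 ≠ 1) : mach.step ((.flush, w, s), mk a f ya yf b k1 k2 z) =
    ((.main, w, s), mk a f ya yf b k1 k2 (app .pop z)) := by
  refine Prod.ext ?_ (funext fun i => ?_)
  · simp [Trk.step, mach, nxt, mk, h]
  · cases i <;> simp [Trk.step, mach, md, sr, mk, m1, m2, m3, m4, m5, m6, m7, s1, s2, s3, app_keep]

theorem st_inc1 (c : Bool) (l2 : List Bool) :
    mach.step ((.inc c, w, s), mk a f ya yf b (enc []) (enc l2) z) =
    ((.mul, w, s), mk a f ya yf b (enc []) (enc (if c then true :: l2 else l2)) z) := by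
  refine Prod.ext ?_ (funext fun i => ?_)
  · simp [Trk.step, mach, nxt, mk, enc]
  · have e : enc [] 0 = 0 := rfl
    cases i <;> cases c <;> simp [Trk.step, mach, md, sr, mk, m1, m2, m3, m4, m5, m6, m7, s1, s2, s3, app_keep, pop_nil, e, ← push_enc, code]

theorem st_inc2 (c d : Bool) (l1 l2 : List Bool) :
    mach.step ((.inc c, w, s), mk a f ya yf b (enc (d :: l1)) (enc l2) z) =
    ((.inc (c && d), w, s), mk a f ya yf b (enc l1) (enc (xor c d :: l2)) z) := by
  have e : enc (d :: l1) 0 = code d := rfl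
  refine Prod.ext ?_ (funext fun i => ?_)
  · cases d <;> simp [Trk.step, mach, nxt, mk, e, code]
  · cases i <;> cases d <;>
      simp [Trk.step, mach, md, sr, mk, m1, m2, m3, m4, m5, m6, m7, s1, s2, s3, app_keep, pop_cons, e, push_enc, show code true = 2 from rfl,
        show code false = 1 from rfl]

theorem st_mul1 (h : 200000 ≤ yf 0) : mach.step ((.mul, w, s), mk a f ya yf b k1 k2 z) =
    ((.mul, w, s), mk (app .shr a) (app .shr f) (app .shr ya) (app .shr yf) (app .shr b) k1 k2 z) := by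
  refine Prod.ext ?_ (funext fun i => ?_)
  · simp [Trk.step, mach, nxt, mk, h]
  · cases i <;> simp [Trk.step, mach, md, sr, mk, m1, m2, m3, m4, m5, m6, m7, s1, s2, s3, h, app_keep]

theorem st_mul2 (h : ¬ 200000 ≤ yf 0) : mach.step ((.mul, w, s), mk a f ya yf b k1 (enc []) z) =
    ((.main, w, s), mk (app .nrm fun j => 1 * ya j + 1 * b j) yf (fun _ => 0) (fun _ => 0) b k1
      (enc []) z) := by
  have e : enc [] 0 = 0 := rfl
  refine Prod.ext ?_ (funext fun i => ?_)
  · simp [Trk.step, mach, nxt, mk, h, e]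
  · cases i <;> simp [Trk.step, mach, md, sr, mk, m1, m2, m3, m4, m5, m6, m7, s1, s2, s3, h, app_keep, e]

theorem st_mul3 (h : ¬ 200000 ≤ yf 0) (d : Bool) (l1 l2 : List Bool) :
    mach.step ((.mul, w, s), mk a f ya yf b (enc l1) (enc (d :: l2)) z) =
    ((.mul, w, s), mk a f (app .nrm fun j => 2 * ya j + (code d - 1) * a j)
      (app .nrm fun j => 2 * yf j + (code d - 1) * f j) b (enc (d :: l1)) (enc l2) z) := by
  have e : enc (d :: l2) 0 = code d := rfl
  have e2 : code d ≠ 0 := by cases d <;> simp [code]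
  refine Prod.ext ?_ (funext fun i => ?_)
  · simp [Trk.step, mach, nxt, mk, h, e, e2]
  · cases i <;> simp [Trk.step, mach, md, sr, mk, m1, m2, m3, m4, m5, m6, m7, s1, s2, s3, h, app_keep, e, e2, pop_cons, push_enc]

theorem run_zero : mach.run 0 = ((.main, 3, 0),
    mk (fun j => if j = 0 then -100000 else 0) (fun j => if j = 0 then 100000 else 0)
      (fun _ => 0) (fun _ => 0) (fun j => if j = 0 then 100000 else 0) (enc [true]) (enc [])
      (enc [])) := by
  refine Prod.ext rfl (funext fun i => funext fun j => ?_)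
  cases i <;> cases j <;> simp [Trk.run, mach, mk, enc, code]

end Pool.Agent.MP_3fa95c_lc.H46
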