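import Pool.Agent.MP_3fa95c_lc.H46.Inv

namespace Pool.Agent.MP_3fa95c_lc.H46

/-- from a one-step invariant to an iterative array that writes the digits in linear time -/
theorem Trk.realtime {G ι : Type} [Finite ι] (M : Trk G ι) (AG : Set G) (hG : AG.Finite) (K : ℤ)
    (D : ℕ → ℕ) (I : ℕ → ℕ → G × (ι → ℕ → ℤ) → Prop) (C : ℕ) (h0 : I 0 0 (M.run 0))
    (hs : ∀ t o st, I t o st →
      (M.out st.1 (fun l => st.2 l 0) = none ∧ I (t + 1) o (M.step st)) ∨
      (∃ d : Fin 10, M.out st.1 (fun l => st.2 l 0) = some d ∧ (d : ℕ) = D o ∧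
        I (t + 1) (o + 1) (M.step st)))
    (hb : ∀ t o st, I t o st → st.1 ∈ AG ∧ (∀ i j, |st.2 i j| ≤ K) ∧ t ≤ C * (o + 1)) :
    ∃ (N : IterArray) (c : ℕ), (∀ n, n ≤ (N.written (c * n)).length) ∧
      ∀ t i (h : i < (N.written t).length), ((N.written t)[i] : ℕ) = D i := by
  let W : ℕ → List (Fin 10) := fun t =>
    (List.range t).filterMap fun i => M.out (M.run i).1 fun l => (M.run i).2 l 0
  have key : ∀ t, I t (W t).length (M.run t) ∧
      (W t).map Fin.val = (List.range (W t).length).map D := by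
    intro t
    induction t with
    | zero => exact ⟨h0, rfl⟩
    | succ t ih =>
      have e : W (t + 1) = W t ++ (M.out (M.run t).1 fun l => (M.run t).2 l 0).toList := by
        simp only [W, List.range_succ, List.filterMap_append]
        cases h : (M.out (M.run t).1 fun l => (M.run t).2 l 0) <;> simp [List.filterMap_cons, h]
      rcases hs _ _ _ ih.1 with ⟨h1, h2⟩ | ⟨d, h1, h2, h3⟩
      · rw [e, h1]; simpa using ⟨h2, ih.2⟩
      · rw [e, h1]
        simp only [Option.toList_some, List.length_append, List.length_singleton, List.map_append,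
          List.range_succ, List.map_cons, List.map_nil, ih.2, h2]
        exact ⟨h3, trivial⟩
  obtain ⟨N, hN⟩ := M.sim AG hG K (fun t => (hb _ _ _ (key t).1).1)
    (fun t => (hb _ _ _ (key t).1).2.1)
  refine ⟨N, 2 * (C + 1), fun n => ?_, fun t i h => ?_⟩
  · rw [mul_assoc, hN]
    have := (hb _ _ _ (key ((C + 1) * n)).1).2.2
    by_contra hc
    have h1 : (W ((C + 1) * n)).length + 1 ≤ n := by
      have : (W ((C + 1) * n)).length < n := not_le.1 hc
      omega
    have h2 := this.trans (Nat.mul_le_mul_left C h1)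
    have : (C + 1) * n = C * n + n := by ring
    omega
  · have hp : N.written t <+: N.written (2 * t) := by
      unfold IterArray.written
      refine List.IsPrefix.filterMap _ ?_
      rw [show 2 * t = t + t by ring, List.range_add]
      exact List.prefix_append _ _
    rw [hN] at hp
    have h2 : i < (W t).length := lt_of_lt_of_le h hp.length_le
    rw [hp.getElem h]
    have h3 := List.getElem_of_eq (key t).2 (i := i) (by simpa using h2)
    simpa using h3

theorem e_realtime : ∃ (N : IterArray) (c : ℕ), (∀ n, n ≤ (N.written (c * n)).length) ∧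
    ∀ t i (h : i < (N.written t).length),
      ((N.written t)[i] : ℕ) = ⌊(10 : ℝ) ^ i * Real.exp 1⌋₊ % 10 := by
  obtain ⟨c, hc⟩ := run_le
  have := tr_finite
  have := md_finite
  refine mach.realtime (Set.univ ×ˢ Set.Icc 1 9 ×ˢ Set.Icc (-6) 6)
    (Set.finite_univ.prod ((Set.finite_Icc _ _).prod (Set.finite_Icc _ _))) 10000000 _ (Inv c)
    (346 + (115 * c + 700)) (inv_zero c) (fun t o st h => ?_) (fun t o st h => ?_)
  · rcases h.step hc with h1 | ⟨d, h1, h2, h3⟩
    · exact Or.inl h1
    · refine Or.inr ⟨d, h1, ?_, h3⟩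
      have e : ((⌊(10 : ℝ) ^ o * Real.exp 1⌋₊ : ℕ) : ℤ) = ⌊(10 : ℝ) ^ o * Real.exp 1⌋ :=
        Int.natCast_floor_eq_floor (by positivity)
      unfold dg at h2
      omega
  · obtain ⟨⟨h1, h2, h3⟩, h4, h5⟩ := h.bound hc
    refine ⟨⟨trivial, ⟨h1, h2⟩, abs_le.1 h3⟩, h4, ?_⟩
    nlinarith

end Pool.Agent.MP_3fa95c_lc.H46
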