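import Pool.Agent.MP_3fa95c_lc.H46.Sim

namespace Pool.Agent.MP_3fa95c_lc.H46

/-- operations on one track -/
inductive Mode where
  | keep | nrm | shl | shr | pop
  | push (a : ℤ)

def app : Mode → (ℕ → ℤ) → ℕ → ℤ
  | .keep, x, j => x j
  | .nrm, x, 0 => x 0 + x 1 / 10
  | .nrm, x, j + 1 => x (j + 1) % 10 + x (j + 2) / 10
  | .shl, x, 0 => 10 * x 0 + x 1
  | .shl, x, j + 1 => x (j + 2)
  | .shr, x, 0 => x 0 / 10
  | .shr, x, 1 => x 0 % 10
  | .shr, x, j + 2 => x (j + 1)
  | .pop, x, j => x (j + 1)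
  | .push a, _, 0 => a
  | .push _, x, j + 1 => x j

def loc0 : Mode → ℤ → ℤ → ℤ
  | .keep, o, _ => o
  | .nrm, o, r => o + r / 10
  | .shl, o, r => 10 * o + r
  | .shr, o, _ => o / 10
  | .pop, _, r => r
  | .push a, _, _ => a

def loc : Mode → Bool → ℤ → ℤ → ℤ → ℤ
  | .keep, _, _, o, _ => o
  | .nrm, _, _, o, r => o % 10 + r / 10
  | .shl, _, _, _, r => r
  | .shr, b, l, _, _ => if b then l % 10 else l
  | .pop, _, _, _, r => r
  | .push _, _, l, _, _ => l

theorem loc0_eq (m : Mode) (x : ℕ → ℤ) : loc0 m (x 0) (x 1) = app m x 0 := by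
  cases m <;> rfl

theorem loc_eq (m : Mode) (x : ℕ → ℤ) (j : ℕ) :
    loc m (decide (j = 0)) (x j) (x (j + 1)) (x (j + 2)) = app m x (j + 1) := by
  cases m <;> cases j <;> simp [loc, app]

/-- multi-track machine with broadcast -/
structure Trk (G ι : Type) where
  g0 : G
  head : ι → ℤ
  next : G → (ι → ℤ) → G
  mode : G → (ι → ℤ) → ι → Mode
  src : G → (ι → ℤ) → ι → (ι → ℤ) → ℤ
  out : G → (ι → ℤ) → Option (Fin 10)

def Trk.step {G ι : Type} (M : Trk G ι) (s : G × (ι → ℕ → ℤ)) : G × (ι → ℕ → ℤ) :=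
  (M.next s.1 fun l => s.2 l 0, fun i =>
    app (M.mode s.1 (fun l => s.2 l 0) i) fun j => M.src s.1 (fun l => s.2 l 0) i fun l => s.2 l j)

def Trk.run {G ι : Type} (M : Trk G ι) : ℕ → G × (ι → ℕ → ℤ)
  | 0 => (M.g0, fun i j => if j = 0 then M.head i else 0)
  | t + 1 => M.step (M.run t)

def Trk.ctl {G ι : Type} (M : Trk G ι) : Ctl G ((ι → ℤ) × Bool) where
  g0 := M.g0
  blank := (fun _ => 0, false)
  head := (M.head, true)
  next g h := M.next g h.1
  phi0 g o r := (fun i => loc0 (M.mode g o.1 i) (M.src g o.1 i o.1) (M.src g o.1 i r.1), true)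
  phi g h l o r := (fun i => loc (M.mode g h.1 i) l.2 (M.src g h.1 i l.1) (M.src g h.1 i o.1)
    (M.src g h.1 i r.1), false)
  out g h := M.out g h.1

theorem Trk.ctl_run {G ι : Type} (M : Trk G ι) (t : ℕ) :
    M.ctl.run t = ((M.run t).1, fun j => (fun l => (M.run t).2 l j, decide (j = 0))) := by
  induction t with
  | zero =>
    refine Prod.ext rfl (funext fun j => ?_)
    cases j <;> simp [Ctl.run, Trk.ctl, Trk.run]
  | succ t ih =>
    simp only [Ctl.run, ih]
    refine Prod.ext rfl (funext fun j => ?_)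
    cases j with
    | zero =>
      refine Prod.ext (funext fun i => ?_) rfl
      exact loc0_eq _ (fun j => M.src (M.run t).1 (fun l => (M.run t).2 l 0) i
        fun l => (M.run t).2 l j)
    | succ j =>
      refine Prod.ext (funext fun i => ?_) rfl
      exact loc_eq _ (fun j => M.src (M.run t).1 (fun l => (M.run t).2 l 0) i
        fun l => (M.run t).2 l j) j

theorem Trk.sim {G ι : Type} [Finite ι] (M : Trk G ι) (AG : Set G) (hG : AG.Finite) (K : ℤ)
    (h1 : ∀ t, (M.run t).1 ∈ AG) (h2 : ∀ t i j, |(M.run t).2 i j| ≤ K) :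
    ∃ N : IterArray, ∀ t, N.written (2 * t) =
      (List.range t).filterMap fun i => M.out (M.run i).1 fun l => (M.run i).2 l 0 := by
  have hT : ((Set.univ.pi fun _ : ι => Set.Icc (-K) K) ×ˢ (Set.univ : Set Bool)).Finite :=
    (Set.Finite.pi fun _ => Set.finite_Icc _ _).prod Set.finite_univ
  obtain ⟨N, hN⟩ := M.ctl.sim AG _ hG hT (fun t => by rw [M.ctl_run]; exact h1 t)
    (fun t j => by
      rw [M.ctl_run]
      exact ⟨fun i _ => abs_le.1 (h2 t i j), trivial⟩)
  refine ⟨N, fun t => ?_⟩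
  rw [hN]
  congr 1
  funext i
  rw [M.ctl_run]; rfl

/-! values of registers -/

def Bd (D : ℤ) (x : ℕ → ℤ) : Prop := ∀ j, |x (j + 1)| ≤ D

noncomputable def val (x : ℕ → ℤ) : ℝ := ∑' j, (x j : ℝ) / 10 ^ j

theorem geo : HasSum (fun j : ℕ => (1 : ℝ) / 10 ^ j) (10 / 9) := by
  have h := hasSum_geometric_of_lt_one (r := (1 / 10 : ℝ)) (by norm_num) (by norm_num)
  simp only [one_div, inv_pow] at h ⊢
  convert h using 1; norm_num

theorem Bd.sum1 {D : ℤ} {x : ℕ → ℤ} (h : Bd D x) :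
    Summable fun j => (x (j + 1) : ℝ) / 10 ^ j := by
  refine Summable.of_norm_bounded (geo.summable.mul_left (D : ℝ)) fun j => ?_
  rw [Real.norm_eq_abs, abs_div, abs_of_pos (by positivity : (0 : ℝ) < 10 ^ j), mul_one_div]
  gcongr
  exact_mod_cast h j

theorem Bd.summable {D : ℤ} {x : ℕ → ℤ} (h : Bd D x) :
    Summable fun j => (x j : ℝ) / 10 ^ j := by
  rw [← summable_nat_add_iff 1]
  refine (h.sum1.div_const 10).congr fun j => ?_
  rw [pow_succ]; field_simp

theorem Bd.val_eq {D : ℤ} {x : ℕ → ℤ} (h : Bd D x) :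
    val x = x 0 + (∑' j, (x (j + 1) : ℝ) / 10 ^ j) / 10 := by
  unfold val
  rw [h.summable.tsum_eq_zero_add, ← tsum_div_const]
  congr 1
  · simp
  · congr 1; funext j; rw [pow_succ]; field_simp

theorem tail_le {D : ℝ} {y : ℕ → ℝ} (hs : Summable fun j => y j / 10 ^ j) (h : ∀ j, y j ≤ D) :
    ∑' j, y j / 10 ^ j ≤ D * (10 / 9) := by
  rw [← (geo.mul_left D).tsum_eq]
  refine hs.tsum_le_tsum (fun j => ?_) (geo.summable.mul_left D)
  rw [mul_one_div]; gcongr; exact h j

theorem tail_ge {D : ℝ} {y : ℕ → ℝ} (hs : Summable fun j => y j / 10 ^ j) (h : ∀ j, D ≤ y j) :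
    D * (10 / 9) ≤ ∑' j, y j / 10 ^ j := by
  rw [← (geo.mul_left D).tsum_eq]
  refine (geo.summable.mul_left D).tsum_le_tsum (fun j => ?_) hs
  rw [mul_one_div]; gcongr; exact h j

theorem Bd.head {x : ℕ → ℤ} (h : Bd 30 x) : |val x - x 0| ≤ 4 := by
  have h1 := tail_le (D := 30) h.sum1 fun j => by exact_mod_cast (abs_le.1 (h j)).2
  have h2 := tail_ge (D := -30) h.sum1 fun j => by exact_mod_cast (abs_le.1 (h j)).1
  rw [h.val_eq, abs_le]; constructor <;> linarith

theorem head_nn {x : ℕ → ℤ} (h : ∀ j, 0 ≤ x (j + 1) ∧ x (j + 1) ≤ 9) :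
    (x 0 : ℝ) ≤ val x ∧ val x ≤ x 0 + 1 := by
  have hb : Bd 9 x := fun j => abs_le.2 ⟨by linarith [(h j).1], (h j).2⟩
  have h1 := tail_le (D := 9) hb.sum1 fun j => by exact_mod_cast (h j).2
  have h2 := tail_ge (D := 0) hb.sum1 fun j => by exact_mod_cast (h j).1
  rw [hb.val_eq]; constructor <;> linarith

theorem val_lin {D E : ℤ} {x y : ℕ → ℤ} (hx : Bd D x) (hy : Bd E y) (a b : ℤ) :
    val (fun j => a * x j + b * y j) = a * val x + b * val y := by
  unfold val
  rw [← tsum_mul_left, ← tsum_mul_left,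
    ← (hx.summable.mul_left _).tsum_add (hy.summable.mul_left _)]
  congr 1; funext j; push_cast; ring

theorem Bd.lin {D E : ℤ} {x y : ℕ → ℤ} (hx : Bd D x) (hy : Bd E y) (a b : ℤ) :
    Bd (|a| * D + |b| * E) (fun j => a * x j + b * y j) := fun j => by
  refine (abs_add_le _ _).trans ?_
  rw [abs_mul, abs_mul]
  exact add_le_add (mul_le_mul_of_nonneg_left (hx j) (abs_nonneg _))
    (mul_le_mul_of_nonneg_left (hy j) (abs_nonneg _))

theorem Bd.mono {D E : ℤ} {x : ℕ → ℤ} (hx : Bd D x) (h : D ≤ E) : Bd E x :=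
  fun j => (hx j).trans h

theorem Bd.shl {D : ℤ} {x : ℕ → ℤ} (h : Bd D x) : Bd D (app .shl x) := fun j => h (j + 1)

theorem val_shl {D : ℤ} {x : ℕ → ℤ} (h : Bd D x) : val (app .shl x) = 10 * val x := by
  rw [h.shl.val_eq, h.val_eq, h.sum1.tsum_eq_zero_add]
  have : ∑' j, (x (j + 1 + 1) : ℝ) / 10 ^ (j + 1) = (∑' j, (app .shl x (j + 1) : ℝ) / 10 ^ j) / 10 := by
    rw [← tsum_div_const]; congr 1; funext j; rw [pow_succ]; simp only [app]; field_simp
  rw [this]; simp only [app]; push_cast; ring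

theorem Bd.shr {D : ℤ} {x : ℕ → ℤ} (h : Bd D x) (hD : 9 ≤ D) : Bd D (app .shr x) := fun j => by
  cases j with
  | zero => simp only [app]; rw [abs_le]; omega
  | succ j => exact h j

theorem val_shr {D : ℤ} {x : ℕ → ℤ} (h : Bd D x) (hD : 9 ≤ D) :
    val (app .shr x) = val x / 10 := by
  have e : app .shl (app .shr x) = x := by
    funext j
    cases j with
    | zero => simp only [app]; omega
    | succ j => rfl
  have := val_shl (h.shr hD)
  rw [e] at this; linarith

theorem Bd.nrm {x : ℕ → ℤ} (h : Bd 210 x) : Bd 30 (app .nrm x) := fun j => by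
  have : -210 ≤ x (j + 2) ∧ x (j + 2) ≤ 210 := abs_le.1 (h (j + 1))
  simp only [app]; rw [abs_le]; omega

theorem val_nrm {x : ℕ → ℤ} (h : Bd 210 x) : val (app .nrm x) = val x := by
  let c : ℕ → ℤ := fun j => match j with
    | 0 => 0
    | j + 1 => x (j + 1) / 10
  have hc : Bd 21 c := fun j => by
    have := abs_le.1 (h j)
    simp only [c]; rw [abs_le]; omega
  have e : app .nrm x = fun j => 1 * (1 * x j + (-10) * c j) + 1 * app .shl c j := by
    funext j
    cases j with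
    | zero => simp [app, c]
    | succ j =>
      show x (j + 1) % 10 + x (j + 2) / 10 =
        1 * (1 * x (j + 1) + (-10) * (x (j + 1) / 10)) + 1 * (x (j + 2) / 10)
      omega
  rw [e, val_lin (h.lin hc 1 (-10)) hc.shl, val_lin h hc, val_shl hc]
  push_cast; ring

theorem val_single (a : ℤ) : val (fun j => if j = 0 then a else 0) = a := by
  have h : Bd 0 (fun j => if j = 0 then a else 0) := fun j => by simp
  rw [h.val_eq]; simp

end Pool.Agent.MP_3fa95c_lc.H46
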