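import Pool.Agent.MP_3fa95c_lc.H46.Defs

namespace Pool.Agent.MP_3fa95c_lc.H46

/-- array with arbitrary state type -/
structure Arr (S : Type) where
  quiet : S
  start : S
  rule0 : S → S → S
  rule : S → S → S → S
  rule_quiet : rule quiet quiet quiet = quiet
  out : S → Option (Fin 10)

def Arr.conf {S : Type} (M : Arr S) : ℕ → ℕ → S
  | 0, 0 => M.start
  | 0, _ + 1 => M.quiet
  | t + 1, 0 => M.rule0 (M.conf t 0) (M.conf t 1)
  | t + 1, j + 1 => M.rule (M.conf t j) (M.conf t (j + 1)) (M.conf t (j + 2))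

theorem Arr.finite {S : Type} (M : Arr S) (A : Set S) (hA : A.Finite)
    (h : ∀ t j, M.conf t j ∈ A) :
    ∃ N : IterArray, ∀ t, N.out (N.conf t 0) = M.out (M.conf t 0) := by
  classical
  have hq : M.quiet ∈ A := h 0 1
  have hs : M.start ∈ A := h 0 0
  let cl : S → A := fun s => if hs : s ∈ A then ⟨s, hs⟩ else ⟨M.quiet, hq⟩
  have hcl : ∀ s (hs : s ∈ A), cl s = ⟨s, hs⟩ := fun s hs => by simp [cl, hs]
  let N : IterArray :=
    { S := A, fin := hA, quiet := ⟨M.quiet, hq⟩, start := ⟨M.start, hs⟩,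
      rule0 := fun a b => cl (M.rule0 a b),
      rule := fun a b c => cl (M.rule a b c),
      rule_quiet := by
        show cl (M.rule M.quiet M.quiet M.quiet) = _
        rw [M.rule_quiet]; exact hcl _ hq
      out := fun a => M.out a }
  have key : ∀ t j, ((N.conf t j : A) : S) = M.conf t j := by
    intro t
    induction t with
    | zero => intro j; cases j <;> rfl
    | succ t ih =>
      intro j
      cases j with
      | zero =>
        show ((cl (M.rule0 (N.conf t 0 : A) (N.conf t 1 : A)) : A) : S) = _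
        rw [ih, ih]; exact congrArg Subtype.val (hcl _ (h (t + 1) 0))
      | succ j =>
        show ((cl (M.rule (N.conf t j : A) (N.conf t (j + 1) : A) (N.conf t (j + 2) : A)) : A) : S) = _
        rw [ih, ih, ih]; exact congrArg Subtype.val (hcl _ (h (t + 1) (j + 1)))
  exact ⟨N, fun t => by show M.out (N.conf t 0 : A) = _; rw [key]⟩

/-- array with instantaneous broadcast of the control state and of cell `0` -/
structure Ctl (G T : Type) where
  g0 : G
  blank : T
  head : T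
  next : G → T → G
  phi0 : G → T → T → T
  phi : G → T → T → T → T → T
  out : G → T → Option (Fin 10)

def Ctl.run {G T : Type} (C : Ctl G T) : ℕ → G × (ℕ → T)
  | 0 => (C.g0, fun j => if j = 0 then C.head else C.blank)
  | i + 1 =>
    (C.next (C.run i).1 ((C.run i).2 0), fun j =>
      match j with
      | 0 => C.phi0 (C.run i).1 ((C.run i).2 0) ((C.run i).2 1)
      | j + 1 => C.phi (C.run i).1 ((C.run i).2 0) ((C.run i).2 j) ((C.run i).2 (j + 1))
          ((C.run i).2 (j + 2)))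

/-- cell of the simulating array -/
structure Cel (G T : Type) where
  act : Bool
  g : G
  h : T
  prev : T
  cur : T
  ctl : G

def Ctl.arr {G T : Type} (C : Ctl G T) : Arr (Cel G T) where
  quiet := ⟨false, C.g0, C.blank, C.blank, C.blank, C.g0⟩
  start := ⟨false, C.g0, C.blank, C.blank, C.head, C.g0⟩
  rule0 a b := if a.act then { a with act := false } else
    ⟨true, a.ctl, a.cur, a.cur, C.phi0 a.ctl a.cur b.cur, C.next a.ctl a.cur⟩
  rule a b c := if a.act then ⟨true, a.g, a.h, b.cur, C.phi a.g a.h a.prev b.cur c.cur, b.ctl⟩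
    else { b with act := false }
  rule_quiet := by simp
  out a := if a.act then C.out a.g a.h else none

def Ctl.Good {G T : Type} (C : Ctl G T) (τ j : ℕ) (a : Cel G T) : Prop :=
  a.cur = (C.run ((τ + 1 - j) / 2)).2 j ∧
  (a.act = true ↔ (j < τ ∧ (τ - j) % 2 = 1)) ∧
  (a.act = true → a.g = (C.run ((τ - j) / 2)).1 ∧ a.h = (C.run ((τ - j) / 2)).2 0 ∧
    a.prev = (C.run ((τ - j) / 2)).2 j) ∧
  (j = 0 → a.ctl = (C.run ((τ + 1) / 2)).1) ∧
  (∃ i, a.g = (C.run i).1) ∧ (∃ i l, a.h = (C.run i).2 l) ∧ (∃ i l, a.prev = (C.run i).2 l) ∧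
  (∃ i, a.ctl = (C.run i).1)

theorem Ctl.good {G T : Type} (C : Ctl G T) : ∀ τ j, C.Good τ j (C.arr.conf τ j) := by
  intro τ
  induction τ with
  | zero =>
    intro j
    cases j with
    | zero =>
      refine ⟨rfl, by simp [Arr.conf, Ctl.arr], by simp [Arr.conf, Ctl.arr], fun _ => rfl,
        ⟨0, rfl⟩, ⟨0, 1, rfl⟩, ⟨0, 1, rfl⟩, ⟨0, rfl⟩⟩
    | succ j =>
      refine ⟨?_, by simp [Arr.conf, Ctl.arr], by simp [Arr.conf, Ctl.arr], by simp,
        ⟨0, rfl⟩, ⟨0, 1, rfl⟩, ⟨0, 1, rfl⟩, ⟨0, rfl⟩⟩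
      have : (0 + 1 - (j + 1)) / 2 = 0 := by omega
      rw [this]; rfl
  | succ τ ih =>
    intro j
    cases j with
    | zero =>
      obtain ⟨a1, a2, a3, a4, a5, a6, a7, a8⟩ := ih 0
      obtain ⟨b1, -⟩ := ih 1
      have e : C.arr.conf (τ + 1) 0 = C.arr.rule0 (C.arr.conf τ 0) (C.arr.conf τ 1) := rfl
      rw [e]
      generalize C.arr.conf τ 0 = a at *
      generalize C.arr.conf τ 1 = b at *
      by_cases ha : a.act = true
      · have hp := a2.1 ha
        have e2 : C.arr.rule0 a b = { a with act := false } := by simp [Ctl.arr, ha]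
        rw [e2]
        have h1 : (τ + 1 + 1 - 0) / 2 = (τ + 1 - 0) / 2 := by omega
        have h2 : (τ + 1 + 1) / 2 = (τ + 1) / 2 := by omega
        refine ⟨by rw [h1]; exact a1, ?_, by simp, fun _ => by rw [h2]; exact a4 rfl, a5, a6, a7, a8⟩
        simp only [Bool.false_eq_true, false_iff]; omega
      · have hp : ¬ (0 < τ ∧ (τ - 0) % 2 = 1) := fun h => ha (a2.2 h)
        have e2 : C.arr.rule0 a b =
          ⟨true, a.ctl, a.cur, a.cur, C.phi0 a.ctl a.cur b.cur, C.next a.ctl a.cur⟩ := by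
          simp [Ctl.arr, ha]
        rw [e2]
        obtain ⟨i, hi⟩ : ∃ i, τ = 2 * i := ⟨τ / 2, by omega⟩
        have h1 : (τ + 1 - 0) / 2 = i := by omega
        have h2 : (τ + 1) / 2 = i := by omega
        have h3 : (τ + 1 - 1) / 2 = i := by omega
        have h4 : (τ + 1 + 1 - 0) / 2 = i + 1 := by omega
        have h5 : (τ + 1 + 1) / 2 = i + 1 := by omega
        have a4' := a4 rfl
        rw [h1] at a1; rw [h2] at a4'; rw [h3] at b1
        refine ⟨?_, ?_, ?_, ?_, ⟨i, a4'⟩, ⟨i, 0, a1⟩, ⟨i, 0, a1⟩, ⟨i + 1, ?_⟩⟩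
        · rw [h4]; simp only [a1, a4', b1]; rfl
        · simp only [true_iff]; omega
        · intro _; rw [h1]; exact ⟨a4', a1, a1⟩
        · intro _; rw [h5]; simp only [a1, a4']; rfl
        · simp only [a1, a4']; rfl
    | succ j =>
      obtain ⟨a1, a2, a3, a4, a5, a6, a7, a8⟩ := ih j
      obtain ⟨b1, b2, b3, b4, b5, b6, b7, b8⟩ := ih (j + 1)
      obtain ⟨c1, -⟩ := ih (j + 2)
      have e : C.arr.conf (τ + 1) (j + 1) =
        C.arr.rule (C.arr.conf τ j) (C.arr.conf τ (j + 1)) (C.arr.conf τ (j + 2)) := rfl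
      rw [e]
      generalize C.arr.conf τ j = a at *
      generalize C.arr.conf τ (j + 1) = b at *
      generalize C.arr.conf τ (j + 2) = c at *
      by_cases ha : a.act = true
      · have hp := a2.1 ha
        obtain ⟨g1, g2, g3⟩ := a3 ha
        have e2 : C.arr.rule a b c =
          ⟨true, a.g, a.h, b.cur, C.phi a.g a.h a.prev b.cur c.cur, b.ctl⟩ := by
          simp [Ctl.arr, ha]
        rw [e2]
        obtain ⟨i, hi⟩ : ∃ i, τ = 2 * i + j + 1 := ⟨(τ - j) / 2, by omega⟩
        have h1 : (τ - j) / 2 = i := by omega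
        have h2 : (τ + 1 - (j + 1)) / 2 = i := by omega
        have h3 : (τ + 1 - (j + 2)) / 2 = i := by omega
        have h4 : (τ + 1 + 1 - (j + 1)) / 2 = i + 1 := by omega
        rw [h1] at g1 g2 g3; rw [h2] at b1; rw [h3] at c1
        refine ⟨?_, ?_, ?_, by simp, ⟨i, g1⟩, ⟨i, 0, g2⟩, ⟨i, _, b1⟩, b8⟩
        · rw [h4]; simp only [g1, g2, g3, b1, c1]; rfl
        · simp only [true_iff]; omega
        · intro _; rw [h2]; exact ⟨g1, g2, b1⟩
      · have hp : ¬ (j < τ ∧ (τ - j) % 2 = 1) := fun h => ha (a2.2 h)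
        have e2 : C.arr.rule a b c = { b with act := false } := by simp [Ctl.arr, ha]
        rw [e2]
        have h1 : (τ + 1 + 1 - (j + 1)) / 2 = (τ + 1 - (j + 1)) / 2 := by omega
        refine ⟨by rw [h1]; exact b1, ?_, by simp, by simp, b5, b6, b7, b8⟩
        simp only [Bool.false_eq_true, false_iff]; omega

theorem Ctl.sim {G T : Type} (C : Ctl G T) (AG : Set G) (AT : Set T) (hG : AG.Finite)
    (hT : AT.Finite) (h1 : ∀ i, (C.run i).1 ∈ AG) (h2 : ∀ i j, (C.run i).2 j ∈ AT) :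
    ∃ N : IterArray, ∀ t, N.written (2 * t) =
      (List.range t).filterMap fun i => C.out (C.run i).1 ((C.run i).2 0) := by
  let f : Bool × G × T × T × T × G → Cel G T :=
    fun p => ⟨p.1, p.2.1, p.2.2.1, p.2.2.2.1, p.2.2.2.2.1, p.2.2.2.2.2⟩
  let A : Set (Cel G T) := f '' (Set.univ ×ˢ AG ×ˢ AT ×ˢ AT ×ˢ AT ×ˢ AG)
  have hA : A.Finite := Set.Finite.image _
    (Set.finite_univ.prod (hG.prod (hT.prod (hT.prod (hT.prod hG)))))
  have hin : ∀ t j, C.arr.conf t j ∈ A := by
    intro t j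
    obtain ⟨a1, -, -, -, ⟨i5, a5⟩, ⟨i6, l6, a6⟩, ⟨i7, l7, a7⟩, ⟨i8, a8⟩⟩ := C.good t j
    generalize C.arr.conf t j = a at *
    refine ⟨(a.act, a.g, a.h, a.prev, a.cur, a.ctl), ⟨trivial, ?_, ?_, ?_, ?_, ?_⟩, rfl⟩
    · show a.g ∈ AG; rw [a5]; exact h1 _
    · show a.h ∈ AT; rw [a6]; exact h2 _ _
    · show a.prev ∈ AT; rw [a7]; exact h2 _ _
    · show a.cur ∈ AT; rw [a1]; exact h2 _ _
    · show a.ctl ∈ AG; rw [a8]; exact h1 _
  obtain ⟨N, hN⟩ := C.arr.finite A hA hin
  refine ⟨N, fun t => ?_⟩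
  induction t with
  | zero => rfl
  | succ t ih =>
    have e : 2 * (t + 1) = 2 * t + 1 + 1 := by ring
    unfold IterArray.written at ih ⊢
    rw [e, List.range_succ, List.range_succ, List.range_succ, List.filterMap_append,
      List.filterMap_append, List.filterMap_append, ih]
    obtain ⟨-, a2, -⟩ := C.good (2 * t) 0
    obtain ⟨-, b2, b3, -⟩ := C.good (2 * t + 1) 0
    have ha : (C.arr.conf (2 * t) 0).act = false := by
      cases h : (C.arr.conf (2 * t) 0).act
      · rfl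
      · have := a2.1 h; omega
    have hb : (C.arr.conf (2 * t + 1) 0).act = true := b2.2 (by omega)
    obtain ⟨g1, g2, -⟩ := b3 hb
    have h3 : (2 * t + 1 - 0) / 2 = t := by omega
    rw [h3] at g1 g2
    have ho : ∀ a, C.arr.out a = if a.act then C.out a.g a.h else none := fun _ => rfl
    have o1 : N.out (N.conf (2 * t) 0) = none := by rw [hN, ho, ha]; simp
    have o2 : N.out (N.conf (2 * t + 1) 0) = C.out (C.run t).1 ((C.run t).2 0) := by
      rw [hN, ho, hb, g1, g2]; simp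
    simp [List.filterMap_cons, o1, o2]

end Pool.Agent.MP_3fa95c_lc.H46
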